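import Pool.Agent.K2G.EST

/-!
# The two circles
-/

set_option autoImplicit false

namespace Pool.Agent.K2G

open Pool.Agent.BEK Pool.Agent.K2B

noncomputable section

namespace Cir

open Est

theorem cp_circ (c : ℂ) (r : ℝ) : Cp (circ c r) := by
  have h := WindX.contDiff_circ c 0 r
  simp only [sub_zero] at h
  exact ⟨h, fun θ => WindX.circ_periodic c r θ⟩

theorem circ_conj {c : ℂ} (hc : (starRingEnd ℂ) c = c) (r θ : ℝ) :
    circ c r (-θ) = (starRingEnd ℂ) (circ c r θ) := by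
  unfold circ
  rw [map_add, map_mul, hc, Complex.conj_ofReal, ← Complex.exp_conj, map_mul,
    Complex.conj_ofReal, Complex.conj_I]
  push_cast
  ring_nf

/-- the point of the circle -/
theorem circ_ex (c : ℂ) {r : ℝ} (hr : 0 < r) (θ : ℝ) : ∃ w : ℂ, circ c r θ = c + w ∧ ‖w‖ = r := by
  refine ⟨r * Complex.exp (θ * Complex.I), rfl, ?_⟩
  rw [norm_mul, Complex.norm_exp_ofReal_mul_I, mul_one, Complex.norm_real,
    Real.norm_of_nonneg hr.le]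

theorem norm_add_ge (a w : ℂ) : ‖a‖ - ‖w‖ ≤ ‖a + w‖ := by
  have h := norm_sub_le (a + w) w
  rw [add_sub_cancel_right] at h
  linarith

theorem bd_one {r : ℝ} (h1 : 24 / 100 < r) (h2 : r < 25 / 100) :
    Bd (circ 1 r) (3 / 4) (5 / 4) (24 / 100) (25 / 100) (1 / 2) (13 / 8) := by
  have hr : 0 < r := by linarith
  constructor
  · intro θ
    obtain ⟨w, hw, hn⟩ := circ_ex 1 hr θ
    rw [hw]
    have := norm_add_ge 1 w
    rw [norm_one] at this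
    linarith
  · intro θ
    obtain ⟨w, hw, hn⟩ := circ_ex 1 hr θ
    rw [hw]
    have := norm_add_le 1 w
    rw [norm_one] at this
    linarith
  · intro θ
    obtain ⟨w, hw, hn⟩ := circ_ex 1 hr θ
    rw [hw, add_sub_cancel_left]
    linarith
  · intro θ
    obtain ⟨w, hw, hn⟩ := circ_ex 1 hr θ
    rw [hw, add_sub_cancel_left]
    linarith
  · intro θ
    obtain ⟨w, hw, hn⟩ := circ_ex 1 hr θ
    rw [hw]
    have e : 2 * (1 + w) - 1 = 1 + 2 * w := by ring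
    rw [e]
    have := norm_add_ge 1 (2 * w)
    rw [norm_one, norm_mul, hn] at this
    norm_num at this
    linarith
  · intro θ
    obtain ⟨w, hw, hn⟩ := circ_ex 1 hr θ
    rw [hw]
    have e : 2 * (1 + w) ^ 2 - 2 * (1 + w) + 1 = 1 + 2 * w + 2 * w ^ 2 := by ring
    rw [e]
    have h3 := norm_add_le (1 + 2 * w) (2 * w ^ 2)
    have h4 := norm_add_le 1 (2 * w)
    have h5 : ‖(2 : ℂ) * w ^ 2‖ = 2 * r ^ 2 := by
      rw [norm_mul, norm_pow, hn]; norm_num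
    have h6 : ‖(2 : ℂ) * w‖ = 2 * r := by
      rw [norm_mul, hn]; norm_num
    rw [norm_one, h6] at h4
    rw [h5] at h3
    nlinarith

theorem bd_half {r : ℝ} (h1 : 19 / 100 < r) (h2 : r < 20 / 100) :
    Bd (circ (1 / 2) r) (3 / 10) (7 / 10) (3 / 10) (7 / 10) (38 / 100) (58 / 100) := by
  have hr : 0 < r := by linarith
  have hh : ‖(1 / 2 : ℂ)‖ = 1 / 2 := by norm_num
  have hh' : ‖(-(1 / 2) : ℂ)‖ = 1 / 2 := by rw [norm_neg, hh]
  constructor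
  · intro θ
    obtain ⟨w, hw, hn⟩ := circ_ex (1 / 2) hr θ
    rw [hw]
    have := norm_add_ge (1 / 2) w
    rw [hh] at this
    linarith
  · intro θ
    obtain ⟨w, hw, hn⟩ := circ_ex (1 / 2) hr θ
    rw [hw]
    have := norm_add_le (1 / 2) w
    rw [hh] at this
    linarith
  · intro θ
    obtain ⟨w, hw, hn⟩ := circ_ex (1 / 2) hr θ
    have e : (1 / 2 + w - 1 : ℂ) = -(1 / 2) + w := by ring
    rw [hw, e]
    have := norm_add_ge (-(1 / 2)) w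
    rw [hh'] at this
    linarith
  · intro θ
    obtain ⟨w, hw, hn⟩ := circ_ex (1 / 2) hr θ
    have e : (1 / 2 + w - 1 : ℂ) = -(1 / 2) + w := by ring
    rw [hw, e]
    have := norm_add_le (-(1 / 2)) w
    rw [hh'] at this
    linarith
  · intro θ
    obtain ⟨w, hw, hn⟩ := circ_ex (1 / 2) hr θ
    rw [hw]
    have e : 2 * (1 / 2 + w) - 1 = 2 * w := by ring
    rw [e, norm_mul, hn]
    norm_num
    linarith
  · intro θ
    obtain ⟨w, hw, hn⟩ := circ_ex (1 / 2) hr θ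
    rw [hw]
    have e : 2 * (1 / 2 + w) ^ 2 - 2 * (1 / 2 + w) + 1 = 1 / 2 + 2 * w ^ 2 := by ring
    rw [e]
    have h3 := norm_add_le (1 / 2) (2 * w ^ 2)
    have h5 : ‖(2 : ℂ) * w ^ 2‖ = 2 * r ^ 2 := by
      rw [norm_mul, norm_pow, hn]; norm_num
    rw [h5, hh] at h3
    nlinarith

/-! ### logarithmic derivatives -/

theorem dlog (c a : ℂ) {r m M : ℝ} (hr : 0 < r) (hm : 0 < m) (h : ∀ θ, m ≤ ‖circ c r θ - a‖)
    (hM : r ≤ M * m) (θ : ℝ) :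
    ‖deriv (fun θ : ℝ => circ c r θ - a) θ / (circ c r θ - a)‖ ≤ M := by
  rw [(WindX.hasDerivAt_circ c a r θ).deriv, norm_div, norm_mul, norm_mul, Complex.norm_I, mul_one,
    Complex.norm_exp_ofReal_mul_I, mul_one, Complex.norm_real, Real.norm_of_nonneg hr.le,
    div_le_iff₀ (hm.trans_le (h θ))]
  have hM0 : 0 ≤ M := by
    by_contra hc
    have := mul_neg_of_neg_of_pos (not_le.1 hc) hm
    linarith
  exact hM.trans (mul_le_mul_of_nonneg_left (h θ) hM0)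

theorem dlog_two (c : ℂ) {r m M : ℝ} (hr : 0 < r) (hm : 0 < m)
    (h : ∀ θ, m ≤ ‖2 * circ c r θ - 1‖) (hM : 2 * r ≤ M * m) (θ : ℝ) :
    ‖deriv (fun θ : ℝ => 2 * circ c r θ - 1) θ / (2 * circ c r θ - 1)‖ ≤ M := by
  have hd : HasDerivAt (fun θ : ℝ => 2 * circ c r θ - 1)
      (2 * (r * (Complex.exp (θ * Complex.I) * Complex.I))) θ := by
    have h1 := ((WindX.hasDerivAt_circ c 0 r θ).const_mul 2).sub_const 1
    simpa using h1
  rw [hd.deriv, norm_div, norm_mul, norm_mul, norm_mul, Complex.norm_I, mul_one,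
    Complex.norm_exp_ofReal_mul_I, mul_one, Complex.norm_real, Real.norm_of_nonneg hr.le,
    div_le_iff₀ (hm.trans_le (h θ))]
  have h2 : ‖(2 : ℂ)‖ = 2 := by norm_num
  rw [h2]
  have hM0 : 0 ≤ M := by
    by_contra hc
    have := mul_neg_of_neg_of_pos (not_le.1 hc) hm
    linarith
  exact hM.trans (mul_le_mul_of_nonneg_left (h θ) hM0)

/-- the estimates for small `t` -/
structure Sm (t : ℂ) (X Y : ℝ → ℂ) (u₁ u₂ e₁ e₂ e₃ e₄ : ℝ) : Prop where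
  cX : Cp X
  cY : Cp Y
  ny : ∀ θ, Y θ ≠ 0
  on : ∀ θ, OnC t (X θ) (Y θ)
  nh : Nz (fun θ => vh t (X θ) (Y θ))
  ng : Nz (fun θ => vg t (X θ) (Y θ))
  nX : Nz X
  nX1 : Nz (fun θ => X θ - 1)
  nX2 : Nz (fun θ => 2 * X θ - 1)
  r1 : |regz (fun θ => vh t (X θ) (Y θ)) (fun θ => X θ - 1) - u₁| ≤ e₁
  r2 : |regz (fun θ => vh t (X θ) (Y θ)) (fun θ => 2 * X θ - 1) - u₂| ≤ e₂
  r3 : |regz (fun θ => vg t (X θ) (Y θ)) X| ≤ e₃
  r4 : |regz (fun θ => vg t (X θ) (Y θ)) (fun θ => 2 * X θ - 1)| ≤ e₄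
  conj : (starRingEnd ℂ) t = t → (∀ θ, X (-θ) = (starRingEnd ℂ) (X θ)) ∧
    (∀ θ, Y (-θ) = (starRingEnd ℂ) (Y θ))

theorem sm_of (hReg : Stmt_Reg) (hLin : Stmt_Lin) (hPert : Stmt_PertB)
    (t : ℂ) (ht : t ≠ 0) (X : ℝ → ℂ) (hX : Cp X) (ε η ζ M₀ M₁ M₂ : ℝ)
    (hbr : Br t X ε η ζ) (h0 : ∀ θ, X θ ≠ 0) (h1 : ∀ θ, X θ - 1 ≠ 0) (h2 : ∀ θ, X θ - 1 / 2 ≠ 0)
    (hc : ∀ θ, X (-θ) = (starRingEnd ℂ) (X θ)) (w0 : wind X = 0)
    (hε0 : 0 ≤ ε) (hε : ε < 1) (hη0 : 0 ≤ η) (hη : η < 1) (hζ0 : 0 ≤ ζ) (hζ : ζ < 1)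
    (m0 : ∀ θ, ‖deriv X θ / X θ‖ ≤ M₀)
    (m1 : ∀ θ, ‖deriv (fun θ => X θ - 1) θ / (X θ - 1)‖ ≤ M₁)
    (m2 : ∀ θ, ‖deriv (fun θ => 2 * X θ - 1) θ / (2 * X θ - 1)‖ ≤ M₂) :
    ∃ Y, Sm t X Y (Real.log ‖t‖ * wind (fun θ => X θ - 1) -
      Real.log 2 * wind (fun θ => X θ - 1 / 2))
      ((Real.log ‖t‖ - 2 * Real.log 2) * wind (fun θ => X θ - 1 / 2))
      ((ε + ε ^ 2 / (1 - ε) / 2) * M₁) ((ε + ε ^ 2 / (1 - ε) / 2) * M₂)
      ((η + η ^ 2 / (1 - η) / 2) * M₀ + (ζ + ζ ^ 2 / (1 - ζ) / 2) * M₀)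
      ((η + η ^ 2 / (1 - η) / 2) * M₂ + (ζ + ζ ^ 2 / (1 - ζ) / 2) * M₂) := by
  obtain ⟨Y, ψ, ψn, ψd, cY, ny, on, nh, ng, nψ, nn, nd, r1, r2, b1, b2, b3, cj⟩ := hbr.ex
  have nX : Nz X := hX.nz h0
  have nX1 : Nz (fun θ => X θ - 1) := (hX.sub (Cp.const 1)).nz h1
  have nXh : Nz (fun θ => X θ - 1 / 2) := (hX.sub (Cp.const (1 / 2))).nz h2
  have nX2 : Nz (fun θ => 2 * X θ - 1) := by
    rw [Rgl.lin2]
    exact Rgl.nz_mul (Rgl.nz_const two_ne_zero) nXh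
  obtain ⟨k1, k2, k3, k4⟩ := Rgl.rgl hReg hLin t ht X _ _ ψ ψn ψd nX nX1 nXh nh ng nψ nn nd w0
    r1 r2
  have p1 := hPert ψ _ ε M₁ nψ nX1 hε0 hε b1 m1
  have p2 := hPert ψ _ ε M₂ nψ nX2 hε0 hε b1 m2
  have p3 := hPert ψn _ η M₀ nn nX hη0 hη b2 m0
  have p4 := hPert ψd _ ζ M₀ nd nX hζ0 hζ b3 m0
  have p5 := hPert ψn _ η M₂ nn nX2 hη0 hη b2 m2
  have p6 := hPert ψd _ ζ M₂ nd nX2 hζ0 hζ b3 m2
  refine ⟨Y, hX, cY, ny, on, nh, ng, nX, nX1, nX2, ?_, ?_, ?_, ?_, fun ht => ⟨hc, cj ht hc⟩⟩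
  · rw [k1, sub_sub_cancel_left, abs_neg]
    exact p1
  · rw [k2, sub_sub_cancel_left, abs_neg]
    exact p2
  · rw [k3]
    exact (abs_sub _ _).trans (add_le_add p3 p4)
  · rw [k4]
    exact (abs_sub _ _).trans (add_le_add p5 p6)

theorem Sm.mono {t : ℂ} {X Y : ℝ → ℂ} {u₁ u₂ e₁ e₂ e₃ e₄ f₁ f₂ f₃ f₄ : ℝ}
    (h : Sm t X Y u₁ u₂ e₁ e₂ e₃ e₄) (h1 : e₁ ≤ f₁) (h2 : e₂ ≤ f₂) (h3 : e₃ ≤ f₃)
    (h4 : e₄ ≤ f₄) : Sm t X Y u₁ u₂ f₁ f₂ f₃ f₄ :=
  { h with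
    r1 := h.r1.trans h1
    r2 := h.r2.trans h2
    r3 := h.r3.trans h3
    r4 := h.r4.trans h4 }

theorem one (hPhi : Stmt_Phi) (hWind : Stmt_Wind) (hReg : Stmt_Reg) (hLin : Stmt_Lin)
    (hPert : Stmt_PertB) (t : ℂ) (ht : t ≠ 0) (ht1 : ‖t‖ ≤ 1 / 50) (r : ℝ)
    (h1 : 24 / 100 < r) (h2 : r < 25 / 100) :
    ∃ Y, Sm t (circ 1 r) Y (Real.log ‖t‖) 0 (47 / 100) (47 / 100) (28 / 100) (82 / 100) := by
  have hr : 0 < r := by linarith
  have hB := bd_one h1 h2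
  have hbr := br hPhi t ht ht1 (circ 1 r) (cp_circ 1 r) _ _ _ _ _ _ (34 / 100) (36 / 100)
    (33 / 1000) (51 / 100) hB (by norm_num) (by norm_num) (by norm_num) (by norm_num)
    (by norm_num) (by norm_num) (by norm_num) (by norm_num) (by norm_num) (by norm_num)
    (by norm_num) (by norm_num) (by norm_num) (by norm_num)
  have hW := hWind 1 r hr
  have w1 := hW.2.1
  have w0 : wind (circ 1 r) = 0 := by
    have h := (hW.2.2 0 (by rw [sub_zero, norm_one]; linarith)).2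
    simpa using h
  have wh : wind (fun θ => circ 1 r θ - 1 / 2) = 0 := by
    refine (hW.2.2 (1 / 2) ?_).2
    have : (1 - 1 / 2 : ℂ) = 1 / 2 := by norm_num
    rw [this]
    norm_num
    linarith
  have d0 : ∀ θ, ‖deriv (circ 1 r) θ / circ 1 r θ‖ ≤ 1 / 3 := by
    intro θ
    have h := dlog 1 0 (m := 3 / 4) (M := 1 / 3) hr (by norm_num)
      (fun θ => by rw [sub_zero]; exact hB.x0lo θ) (by linarith) θ
    simpa using h
  have d1 := dlog 1 1 (m := r) (M := 1) hr hr (fun θ => by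
    obtain ⟨w, hw, hn⟩ := circ_ex 1 hr θ
    rw [hw, add_sub_cancel_left, hn]) (by linarith)
  have d2 := dlog_two 1 (m := 1 / 2) (M := 1) hr (by norm_num) hB.x2lo (by linarith)
  obtain ⟨Y, hY⟩ := sm_of hReg hLin hPert t ht (circ 1 r) (cp_circ 1 r) _ _ _ _ _ _ hbr
    (fun θ => ne_of_le (by norm_num) (hB.x0lo θ)) (fun θ => ne_of_le (by norm_num) (hB.x1lo θ))
    (fun θ h => by
      have h3 := hB.x2lo θ
      have : 2 * circ 1 r θ - 1 = 0 := by linear_combination 2 * h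
      rw [this, norm_zero] at h3
      norm_num at h3)
    (circ_conj (map_one _) r) w0 (by norm_num) (by norm_num) (by norm_num) (by norm_num)
    (by norm_num) (by norm_num) d0 d1 d2
  rw [w1, wh, mul_one, mul_zero, sub_zero, mul_zero] at hY
  exact ⟨Y, hY.mono (by norm_num) (by norm_num) (by norm_num) (by norm_num)⟩

theorem half (hPhi : Stmt_Phi) (hWind : Stmt_Wind) (hReg : Stmt_Reg) (hLin : Stmt_Lin)
    (hPert : Stmt_PertB) (t : ℂ) (ht : t ≠ 0) (ht1 : ‖t‖ ≤ 1 / 50) (r : ℝ)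
    (h1 : 19 / 100 < r) (h2 : r < 20 / 100) :
    ∃ Y, Sm t (circ (1 / 2) r) Y (-Real.log 2) (Real.log ‖t‖ - 2 * Real.log 2)
      (7 / 100) (10 / 100) (10 / 100) (14 / 100) := by
  have hr : 0 < r := by linarith
  have hB := bd_half h1 h2
  have hbr := br hPhi t ht ht1 (circ (1 / 2) r) (cp_circ (1 / 2) r) _ _ _ _ _ _ (72 / 1000)
    (9 / 100) (67 / 1000) (67 / 1000) hB (by norm_num) (by norm_num) (by norm_num) (by norm_num)
    (by norm_num) (by norm_num) (by norm_num) (by norm_num) (by norm_num) (by norm_num)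
    (by norm_num) (by norm_num) (by norm_num) (by norm_num)
  have hW := hWind (1 / 2) r hr
  have w1 := hW.2.1
  have w0 : wind (circ (1 / 2) r) = 0 := by
    have h := (hW.2.2 0 (by rw [sub_zero]; norm_num; linarith)).2
    simpa using h
  have wh : wind (fun θ => circ (1 / 2) r θ - 1) = 0 := by
    refine (hW.2.2 1 ?_).2
    have : (1 / 2 - 1 : ℂ) = -(1 / 2) := by norm_num
    rw [this, norm_neg]
    norm_num
    linarith
  have d0 : ∀ θ, ‖deriv (circ (1 / 2) r) θ / circ (1 / 2) r θ‖ ≤ 2 / 3 := by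
    intro θ
    have h := dlog (1 / 2) 0 (m := 3 / 10) (M := 2 / 3) hr (by norm_num)
      (fun θ => by rw [sub_zero]; exact hB.x0lo θ) (by linarith) θ
    simpa using h
  have d1 := dlog (1 / 2) 1 (m := 3 / 10) (M := 2 / 3) hr (by norm_num) hB.x1lo (by linarith)
  have d2 := dlog_two (1 / 2) (m := 2 * r) (M := 1) hr (by linarith) (fun θ => by
    obtain ⟨w, hw, hn⟩ := circ_ex (1 / 2) hr θ
    rw [hw]
    have e : 2 * (1 / 2 + w) - 1 = 2 * w := by ring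
    rw [e, norm_mul, hn]
    norm_num) (by linarith)
  obtain ⟨Y, hY⟩ := sm_of hReg hLin hPert t ht (circ (1 / 2) r) (cp_circ (1 / 2) r) _ _ _ _ _ _
    hbr (fun θ => ne_of_le (by norm_num) (hB.x0lo θ))
    (fun θ => ne_of_le (by norm_num) (hB.x1lo θ))
    (fun θ h => by
      have h3 := hB.x2lo θ
      have : 2 * circ (1 / 2) r θ - 1 = 0 := by linear_combination 2 * h
      rw [this, norm_zero] at h3
      norm_num at h3)
    (circ_conj (by rw [map_div₀, map_one, map_ofNat]) r) w0 (by norm_num) (by norm_num)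
    (by norm_num) (by norm_num) (by norm_num) (by norm_num) d0 d1 d2
  rw [w1, wh, mul_one, mul_zero, mul_one, zero_sub] at hY
  exact ⟨Y, hY.mono (by norm_num) (by norm_num) (by norm_num) (by norm_num)⟩

end Cir

end

end Pool.Agent.K2G
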