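import Pool.Agent.K2G.Irr
import Pool.Agent.K2C.Defs

/-!
# `K₂` of the genus 2 curves `y² = (2 x - 1) (t x - (2 x - 1) (x - 1)) (t x (2 x - 1) - (x - 1))`
-/

set_option autoImplicit false

open Polynomial NumberField

namespace Pool.Agent.K2G

open Pool.Agent.BEK

noncomputable section

variable {k : Type} [Field k] [NumberField k] (t : (𝓞 k)ˣ)

theorem unit_ne : ((t : 𝓞 k) : k) ≠ 0 := by
  intro h
  exact t.ne_zero (RingOfIntegers.ext (h.trans (map_zero _).symm))

/-- The equation `y² - (2 x - 1) A B` of the curve over `k(x)`. -/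
def eqn : (RatFunc k)[X] :=
  X ^ 2 - C (algebraMap k[X] (RatFunc k) (quintic ((t : 𝓞 k) : k)))

instance : Fact (Irreducible (eqn t)) := ⟨Irr.irr (unit_ne t)⟩

/-- The function field `k(x)[y] / (y² - (2 x - 1) A B)`. -/
def FC : Type := AdjoinRoot (eqn t)

instance : Field (FC t) := AdjoinRoot.instField

/-- The inclusion of `k(x)`. -/
def ofR : RatFunc k →+* FC t := AdjoinRoot.of (eqn t)

/-- The constants. -/
def cst : k →+* FC t := (ofR t).comp RatFunc.C

/-- The function `x`. -/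
def fx : FC t := ofR t RatFunc.X

/-- The function `y`. -/
def fy : FC t := AdjoinRoot.root (eqn t)

/-- The function `A = t x - (2 x - 1) (x - 1)`. -/
def fA : FC t := cst t ((t : 𝓞 k) : k) * fx t - (2 * fx t - 1) * (fx t - 1)

/-- The function `h = (y - A) / (y + A)`. -/
def fh : FC t := (fy t - fA t) / (fy t + fA t)

/-- The function `g = (y + (2 x - 1) A) / (y - (2 x - 1) A)`. -/
def fg : FC t := (fy t + (2 * fx t - 1) * fA t) / (fy t - (2 * fx t - 1) * fA t)

/-- The elements `{h, x - 1}`, `{h, 2 x - 1}`, `{g, x}`, `{g, 2 x - 1}` of `K₂(F) ⊗ ℚ`. -/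
def alpha : Fin 4 → KQ (FC t) :=
  ![K2B.sym (fh t) (fx t - 1), K2B.sym (fh t) (2 * fx t - 1),
    K2B.sym (fg t) (fx t), K2B.sym (fg t) (2 * fx t - 1)]

/-- The loop lies on the curve over `ℂ` obtained from the embedding `σ`. -/
def Over {t : (𝓞 k)ˣ} (γ : Loop (FC t)) (σ : k →+* ℂ) : Prop :=
  ∀ (θ : ℝ) (a : k), γ.ev θ (cst t a) = σ a

end

end Pool.Agent.K2G
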