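import Pool.Agent.K2C.QUO
import Pool.Agent.K2B.LIN
import Pool.Agent.K2B.WIND

/-!
# Regulators along a loop
-/

set_option autoImplicit false

namespace Pool.Agent.K2G

open Pool.Agent.BEK Pool.Agent.K2B

noncomputable section

namespace Rgl

theorem nz_const {c : ℂ} (hc : c ≠ 0) : Nz (fun _ : ℝ => c) :=
  ⟨contDiff_const, fun _ => rfl, fun _ => hc⟩

theorem nz_mul {f g : ℝ → ℂ} (hf : Nz f) (hg : Nz g) : Nz (fun θ => f θ * g θ) :=
  ⟨hf.smooth.mul hg.smooth, fun θ => by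
    show f (θ + 2 * Real.pi) * g (θ + 2 * Real.pi) = f θ * g θ
    rw [hf.periodic, hg.periodic], fun θ => mul_ne_zero (hf.ne θ) (hg.ne θ)⟩

theorem const_left (hReg : Stmt_Reg) (c : ℂ) (g : ℝ → ℂ) :
    regz (fun _ => c) g = Real.log ‖c‖ * wind g := hReg.2.2.2.1 c g

theorem const_right (hReg : Stmt_Reg) (c : ℂ) (g : ℝ → ℂ) :
    regz g (fun _ => c) = - (Real.log ‖c‖ * wind g) := by
  rw [hReg.2.2.1 (fun _ => c) g, hReg.2.2.2.1]

theorem self (hReg : Stmt_Reg) (g : ℝ → ℂ) : regz g g = 0 := by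
  have := hReg.2.2.1 g g
  linarith

theorem lin2 (X : ℝ → ℂ) : (fun θ => 2 * X θ - 1) = fun θ => (2 : ℂ) * (X θ - 1 / 2) := by
  funext θ; ring

theorem half_ne_one : (1 / 2 : ℂ) ≠ 1 := by norm_num
theorem half_ne_zero' : (1 / 2 : ℂ) ≠ 0 := by norm_num

theorem rgl (hReg : Stmt_Reg) (hLin : Stmt_Lin) (t : ℂ) (ht : t ≠ 0) (X f g ψ ψn ψd : ℝ → ℂ)
    (nX : Nz X) (n1 : Nz (fun θ => X θ - 1)) (nh : Nz (fun θ => X θ - 1 / 2))
    (nf : Nz f) (ng : Nz g) (nψ : Nz ψ) (nn : Nz ψn) (nd : Nz ψd) (w0 : wind X = 0)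
    (e1 : ∀ θ, f θ * ((-2 / t) * ((X θ - 1 / 2) * ψ θ)) = X θ * X θ)
    (e2 : ∀ θ, g θ * ((-1) * ((X θ - 1) * ψd θ)) = X θ * ψn θ) :
    regz f (fun θ => X θ - 1) = Real.log ‖t‖ * wind (fun θ => X θ - 1) -
      Real.log 2 * wind (fun θ => X θ - 1 / 2) - regz ψ (fun θ => X θ - 1) ∧
    regz f (fun θ => 2 * X θ - 1) = (Real.log ‖t‖ - 2 * Real.log 2) *
      wind (fun θ => X θ - 1 / 2) - regz ψ (fun θ => 2 * X θ - 1) ∧
    regz g X = regz ψn X - regz ψd X ∧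
    regz g (fun θ => 2 * X θ - 1) = regz ψn (fun θ => 2 * X θ - 1) -
      regz ψd (fun θ => 2 * X θ - 1) := by
  have hc : (-2 / t : ℂ) ≠ 0 := div_ne_zero (by norm_num) ht
  have n2 : Nz (fun θ => 2 * X θ - 1) := by
    rw [lin2]
    exact nz_mul (nz_const two_ne_zero) nh
  -- splitting
  have key : ∀ k : ℝ → ℂ, Nz k → regz f k = 2 * regz X k - Real.log ‖(-2 / t : ℂ)‖ * wind k -
      regz (fun θ => X θ - 1 / 2) k - regz ψ k := by
    intro k hk
    have h1 : regz (fun θ => f θ * ((-2 / t) * ((X θ - 1 / 2) * ψ θ))) k =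
        regz (fun θ => X θ * X θ) k := by
      congr 1
      funext θ
      exact e1 θ
    rw [hReg.1 f _ k nf (nz_mul (nz_const hc) (nz_mul nh nψ)) hk,
      hReg.1 _ _ k (nz_const hc) (nz_mul nh nψ) hk, hReg.1 _ ψ k nh nψ hk,
      hReg.1 X X k nX nX hk, const_left hReg] at h1
    linarith
  have key2 : ∀ k : ℝ → ℂ, Nz k → regz g k = regz X k + regz ψn k -
      regz (fun θ => X θ - 1) k - regz ψd k := by
    intro k hk
    have h1 : regz (fun θ => g θ * ((-1) * ((X θ - 1) * ψd θ))) k =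
        regz (fun θ => X θ * ψn θ) k := by
      congr 1
      funext θ
      exact e2 θ
    have hm : (-1 : ℂ) ≠ 0 := neg_ne_zero.2 one_ne_zero
    rw [hReg.1 g _ k ng (nz_mul (nz_const hm) (nz_mul n1 nd)) hk,
      hReg.1 _ _ k (nz_const hm) (nz_mul n1 nd) hk, hReg.1 _ ψd k n1 nd hk,
      hReg.1 X ψn k nX nn hk, const_left hReg, norm_neg, norm_one, Real.log_one, zero_mul] at h1
    linarith
  -- regulators of linear functions
  have nX0 : Nz (fun θ => X θ - 0) := by simpa using nX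
  have a1 : regz X (fun θ => X θ - 1) = 0 := by
    have h := hLin X 0 1 zero_ne_one nX0 n1
    simp only [sub_zero, zero_sub, norm_neg, norm_one, Real.log_one, zero_mul] at h
    exact h
  have a2 : regz (fun θ => X θ - 1 / 2) (fun θ => X θ - 1) =
      -Real.log 2 * (wind (fun θ => X θ - 1) - wind (fun θ => X θ - 1 / 2)) := by
    have h := hLin X (1 / 2) 1 half_ne_one nh n1
    rw [h]
    congr 1
    have : (1 / 2 - 1 : ℂ) = -(2 : ℂ)⁻¹ := by norm_num
    rw [this, norm_neg, norm_inv, Real.log_inv]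
    norm_num
  have a3 : regz X (fun θ => X θ - 1 / 2) = -Real.log 2 * wind (fun θ => X θ - 1 / 2) := by
    have h := hLin X 0 (1 / 2) half_ne_zero'.symm nX0 nh
    have e0 : (0 - 1 / 2 : ℂ) = -(2 : ℂ)⁻¹ := by norm_num
    rw [e0, norm_neg, norm_inv, Real.log_inv] at h
    simp only [sub_zero, w0] at h
    rw [h]
    norm_num
  have dbl : ∀ k : ℝ → ℂ, Nz k → regz k (fun θ => 2 * X θ - 1) =
      -Real.log 2 * wind k + regz k (fun θ => X θ - 1 / 2) := by
    intro k hk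
    rw [lin2, hReg.2.1 k _ _ hk (nz_const two_ne_zero) nh, const_right hReg]
    norm_num
  have w2 : wind (fun θ => 2 * X θ - 1) = wind (fun θ => X θ - 1 / 2) := by
    rw [lin2, hReg.2.2.2.2.1 _ _ (nz_const two_ne_zero) nh, hReg.2.2.2.2.2, zero_add]
  have hl : Real.log ‖(-2 / t : ℂ)‖ = Real.log 2 - Real.log ‖t‖ := by
    rw [norm_div, norm_neg, Real.log_div (by norm_num) (norm_ne_zero_iff.2 ht)]
    norm_num
  have a4 : regz (fun θ => X θ - 1) (fun θ => X θ - 1 / 2) =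
      -Real.log 2 * (wind (fun θ => X θ - 1 / 2) - wind (fun θ => X θ - 1)) := by
    rw [hReg.2.2.1 (fun θ => X θ - 1 / 2) (fun θ => X θ - 1), a2]
    ring
  refine ⟨?_, ?_, ?_, ?_⟩
  · rw [key _ n1, a1, a2, hl]
    ring
  · rw [key _ n2, dbl X nX, dbl _ nh, self hReg, a3, w0, w2, hl]
    ring
  · rw [key2 X nX, self hReg, hReg.2.2.1 X (fun θ => X θ - 1), a1]
    ring
  · rw [key2 _ n2, dbl X nX, dbl _ n1, a3, a4, w0]
    ring

end Rgl

end

end Pool.Agent.K2G
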