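import Pool.Agent.K2G.FIELD
import Pool.Agent.K2G.RGL
import Pool.Agent.K2B.Phi
import Pool.Agent.K2B.PertB

/-!
# The branch for small `t`
-/

set_option autoImplicit false

namespace Pool.Agent.K2G

open Pool.Agent.BEK Pool.Agent.K2B

noncomputable section

/-- the value of `h` -/
def vh (t x y : ℂ) : ℂ := (y - vA t x) / (y + vA t x)

/-- the value of `g` -/
def vg (t x y : ℂ) : ℂ := (y + (2 * x - 1) * vA t x) / (y - (2 * x - 1) * vA t x)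

namespace Est

/-- periodic `C¹` functions -/
structure Cp (f : ℝ → ℂ) : Prop where
  smooth : ContDiff ℝ 1 f
  periodic : ∀ θ, f (θ + 2 * Real.pi) = f θ

theorem Cp.of {f : ℝ → ℂ} (h : Nz f) : Cp f := ⟨h.smooth, h.periodic⟩

theorem Cp.nz {f : ℝ → ℂ} (h : Cp f) (h0 : ∀ θ, f θ ≠ 0) : Nz f := ⟨h.smooth, h.periodic, h0⟩

theorem Cp.const (c : ℂ) : Cp (fun _ => c) := ⟨contDiff_const, fun _ => rfl⟩

theorem Cp.add {f g : ℝ → ℂ} (hf : Cp f) (hg : Cp g) : Cp (fun θ => f θ + g θ) :=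
  ⟨hf.smooth.add hg.smooth, fun θ => by
    show f (θ + 2 * Real.pi) + g (θ + 2 * Real.pi) = f θ + g θ
    rw [hf.periodic, hg.periodic]⟩

theorem Cp.sub {f g : ℝ → ℂ} (hf : Cp f) (hg : Cp g) : Cp (fun θ => f θ - g θ) :=
  ⟨hf.smooth.sub hg.smooth, fun θ => by
    show f (θ + 2 * Real.pi) - g (θ + 2 * Real.pi) = f θ - g θ
    rw [hf.periodic, hg.periodic]⟩

theorem Cp.mul {f g : ℝ → ℂ} (hf : Cp f) (hg : Cp g) : Cp (fun θ => f θ * g θ) :=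
  ⟨hf.smooth.mul hg.smooth, fun θ => by
    show f (θ + 2 * Real.pi) * g (θ + 2 * Real.pi) = f θ * g θ
    rw [hf.periodic, hg.periodic]⟩

theorem Cp.div {f g : ℝ → ℂ} (hf : Cp f) (hg : Cp g) (h0 : ∀ θ, g θ ≠ 0) :
    Cp (fun θ => f θ / g θ) where
  smooth := by
    have h := hf.smooth.mul (hg.smooth.inv h0)
    have e : (fun θ => f θ / g θ) = f * g⁻¹ := by
      funext θ
      exact div_eq_mul_inv _ _
    rw [e]
    exact h
  periodic := by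
    intro θ
    show f (θ + 2 * Real.pi) / g (θ + 2 * Real.pi) = f θ / g θ
    rw [hf.periodic, hg.periodic]

/-- bounds on the loop -/
structure Bd (X : ℝ → ℂ) (a₀ b₀ a₁ b₁ a₂ q : ℝ) : Prop where
  x0lo : ∀ θ, a₀ ≤ ‖X θ‖
  x0hi : ∀ θ, ‖X θ‖ ≤ b₀
  x1lo : ∀ θ, a₁ ≤ ‖X θ - 1‖
  x1hi : ∀ θ, ‖X θ - 1‖ ≤ b₁
  x2lo : ∀ θ, a₂ ≤ ‖2 * X θ - 1‖
  qhi : ∀ θ, ‖2 * X θ ^ 2 - 2 * X θ + 1‖ ≤ q

theorem ne_of_le {a : ℝ} {z : ℂ} (ha : 0 < a) (h : a ≤ ‖z‖) : z ≠ 0 := by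
  rintro rfl
  rw [norm_zero] at h
  linarith

/-- algebra at one point -/
theorem alg (t X φ : ℂ) (ht : t ≠ 0) (h0 : X ≠ 0) (h1 : X - 1 ≠ 0) (h2 : 2 * X - 1 ≠ 0)
    (hA : vA t X ≠ 0) (P H Y : ℂ)
    (hP : P = -(2 * X - 1) / (t * X ^ 2) *
      (1 - t * X * (2 * X ^ 2 - 2 * X + 1) / ((X - 1) * (2 * X - 1))))
    (hH : H = P * φ) (hq : H ^ 2 - P * H + 1 = 0) (hH0 : H ≠ 0) (hH1 : H - 1 ≠ 0)
    (hd : 1 + X / ((1 - X) * H) ≠ 0) (hY : Y = vA t X * (H + 1) / (H - 1)) :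
    OnC t X Y ∧ vh t X Y = H⁻¹ ∧
    vh t X Y * ((-2 / t) * ((X - 1 / 2) * ((1 - t * X * (2 * X ^ 2 - 2 * X + 1) /
      ((X - 1) * (2 * X - 1))) * φ))) = X * X ∧
    vg t X Y * ((-1) * ((X - 1) * (1 + X / ((1 - X) * H)))) = X * (1 + (1 - X) / (X * H)) := by
  have hX1 : 1 - X ≠ 0 := by
    intro h
    apply h1
    linear_combination -h
  -- `P = 2 + A / (t X² (X - 1))`
  have hP2 : P * (t * X ^ 2 * (X - 1)) = 2 * (t * X ^ 2 * (X - 1)) + vA t X := by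
    rw [hP]
    unfold vA
    field_simp
    ring
  have e1 : vh t X Y = H⁻¹ := by
    unfold vh
    rw [hY]
    have k1 : vA t X * (H + 1) / (H - 1) - vA t X = 2 * vA t X / (H - 1) := by
      field_simp
      ring
    have k2 : vA t X * (H + 1) / (H - 1) + vA t X = 2 * vA t X * H / (H - 1) := by
      field_simp
      ring
    rw [k1, k2]
    field_simp
  refine ⟨?_, e1, ?_, ?_⟩
  · unfold OnC
    rw [hY]
    have k3 : (H - 1) ^ 2 * (t * X ^ 2 * (X - 1)) = H * vA t X := by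
      linear_combination (t * X ^ 2 * (X - 1)) * hq + H * hP2
    have k4 : (H + 1) ^ 2 * (t * X ^ 2 * (X - 1)) = H * ((2 * X - 1) * vB t X) := by
      have : (2 * X - 1) * vB t X = 4 * (t * X ^ 2 * (X - 1)) + vA t X := by
        unfold vB vA; ring
      rw [this]
      linear_combination (t * X ^ 2 * (X - 1)) * hq + H * hP2
    have hk : t * X ^ 2 * (X - 1) ≠ 0 := mul_ne_zero (mul_ne_zero ht (pow_ne_zero 2 h0)) h1
    rw [div_pow, mul_pow, div_eq_iff (pow_ne_zero 2 hH1)]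
    apply mul_left_cancel₀ hk
    linear_combination (vA t X) ^ 2 * k4 - (2 * X - 1) * vA t X * vB t X * k3
  · rw [e1]
    have hPφ : -2 / t * ((X - 1 / 2) * ((1 - t * X * (2 * X ^ 2 - 2 * X + 1) /
      ((X - 1) * (2 * X - 1))) * φ)) = H * X ^ 2 := by
      rw [hH, hP]
      field_simp
    rw [hPφ]
    field_simp
  · have e2 : vg t X Y = (X * H + (1 - X)) / ((1 - X) * H + X) := by
      unfold vg
      rw [hY]
      have k1 : vA t X * (H + 1) / (H - 1) + (2 * X - 1) * vA t X =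
          2 * vA t X * (X * H + (1 - X)) / (H - 1) := by
        field_simp
        ring
      have k2 : vA t X * (H + 1) / (H - 1) - (2 * X - 1) * vA t X =
          2 * vA t X * ((1 - X) * H + X) / (H - 1) := by
        field_simp
        ring
      rw [k1, k2, div_div_div_cancel_right₀ hH1, mul_div_mul_left _ _ (mul_ne_zero two_ne_zero hA)]
    have hd' : (1 - X) * H + X ≠ 0 := by
      intro h
      apply hd
      field_simp
      linear_combination h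
    have e3 : 1 + X / ((1 - X) * H) = ((1 - X) * H + X) / ((1 - X) * H) := by
      field_simp
    have e4 : 1 + (1 - X) / (X * H) = (X * H + (1 - X)) / (X * H) := by
      field_simp
    rw [e2, e3, e4]
    generalize (1 - X) * H + X = D at hd' ⊢
    generalize X * H + (1 - X) = N
    have e5 : -1 * ((X - 1) * (D / ((1 - X) * H))) = D / H := by
      have : X - 1 = -(1 - X) := by ring
      rw [this]
      field_simp
    rw [e5]
    field_simp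

/-- the functions on a loop -/
structure Br (t : ℂ) (X : ℝ → ℂ) (ε η ζ : ℝ) : Prop where
  ex : ∃ Y ψ ψn ψd : ℝ → ℂ, Cp Y ∧ (∀ θ, Y θ ≠ 0) ∧ (∀ θ, OnC t (X θ) (Y θ)) ∧
    Nz (fun θ => vh t (X θ) (Y θ)) ∧ Nz (fun θ => vg t (X θ) (Y θ)) ∧ Nz ψ ∧ Nz ψn ∧ Nz ψd ∧
    (∀ θ, vh t (X θ) (Y θ) * ((-2 / t) * ((X θ - 1 / 2) * ψ θ)) = X θ * X θ) ∧
    (∀ θ, vg t (X θ) (Y θ) * ((-1) * ((X θ - 1) * ψd θ)) = X θ * ψn θ) ∧
    (∀ θ, ‖ψ θ - 1‖ ≤ ε) ∧ (∀ θ, ‖ψn θ - 1‖ ≤ η) ∧ (∀ θ, ‖ψd θ - 1‖ ≤ ζ) ∧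
    ((starRingEnd ℂ) t = t → (∀ θ, X (-θ) = (starRingEnd ℂ) (X θ)) →
      ∀ θ, Y (-θ) = (starRingEnd ℂ) (Y θ))

theorem br (hPhi : Stmt_Phi) (t : ℂ) (ht : t ≠ 0) (ht1 : ‖t‖ ≤ 1 / 50) (X : ℝ → ℂ) (hX : Cp X)
    (a₀ b₀ a₁ b₁ a₂ q δ ε η ζ : ℝ) (hB : Bd X a₀ b₀ a₁ b₁ a₂ q)
    (p₀ : 0 < a₀) (p₁ : 0 < a₁) (p₂ : 0 < a₂) (hδ0 : 0 ≤ δ) (hδ1 : δ < 1)
    (c1 : 1 / 50 * b₀ * q ≤ δ * (a₁ * a₂))
    (c2 : 10 * (1 / 50 * b₀ ^ 2) ≤ a₂ * (1 - δ))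
    (c3 : δ * (10105 / 10000) + 105 / 10000 ≤ ε) (hε : ε < 1)
    (c4 : 1 / 50 * b₀ ^ 2 * b₁ ≤ η * (a₀ * (a₂ * (1 - ε)))) (hη : η < 1)
    (c5 : 1 / 50 * b₀ ^ 2 * b₀ ≤ ζ * (a₁ * (a₂ * (1 - ε)))) (hζ : ζ < 1)
    (c6 : 1 / 50 * b₀ < a₁ * a₂) : Br t X ε η ζ := by
  have hb0 : 0 < b₀ := p₀.trans_le ((hB.x0lo 0).trans (hB.x0hi 0))
  have hb1 : 0 < b₁ := p₁.trans_le ((hB.x1lo 0).trans (hB.x1hi 0))
  have hq0 : 0 ≤ q := (norm_nonneg _).trans (hB.qhi 0)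
  have z0 : ∀ θ, X θ ≠ 0 := fun θ => ne_of_le p₀ (hB.x0lo θ)
  have z1 : ∀ θ, X θ - 1 ≠ 0 := fun θ => ne_of_le p₁ (hB.x1lo θ)
  have z2 : ∀ θ, 2 * X θ - 1 ≠ 0 := fun θ => ne_of_le p₂ (hB.x2lo θ)
  have z1' : ∀ θ, 1 - X θ ≠ 0 := fun θ h => z1 θ (by linear_combination -h)
  have nt : 0 < ‖t‖ := norm_pos_iff.2 ht
  have hA : ∀ θ, vA t (X θ) ≠ 0 := by
    intro θ h
    unfold vA at h
    have h1 : t * X θ = (2 * X θ - 1) * (X θ - 1) := sub_eq_zero.1 h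
    have h2 := congrArg norm h1
    rw [norm_mul, norm_mul] at h2
    have h3 : ‖t‖ * ‖X θ‖ ≤ 1 / 50 * b₀ :=
      mul_le_mul ht1 (hB.x0hi θ) (norm_nonneg _) (by norm_num)
    have h4 : a₁ * a₂ ≤ ‖2 * X θ - 1‖ * ‖X θ - 1‖ := by
      rw [mul_comm a₁]
      exact mul_le_mul (hB.x2lo θ) (hB.x1lo θ) p₁.le (norm_nonneg _)
    linarith
  -- the function `δ₁`
  set D : ℝ → ℂ := fun θ => t * X θ * (2 * X θ ^ 2 - 2 * X θ + 1) /
    ((X θ - 1) * (2 * X θ - 1)) with hD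
  have hDn : ∀ θ, ‖D θ‖ ≤ δ := by
    intro θ
    rw [hD]
    simp only [norm_div, norm_mul]
    have h5 : 0 < ‖X θ - 1‖ * ‖2 * X θ - 1‖ :=
      mul_pos (norm_pos_iff.2 (z1 θ)) (norm_pos_iff.2 (z2 θ))
    rw [div_le_iff₀ h5]
    have h3 : ‖t‖ * ‖X θ‖ * ‖2 * X θ ^ 2 - 2 * X θ + 1‖ ≤ 1 / 50 * b₀ * q :=
      mul_le_mul (mul_le_mul ht1 (hB.x0hi θ) (norm_nonneg _) (by norm_num)) (hB.qhi θ)
        (norm_nonneg _) (by positivity)
    have h4 : a₁ * a₂ ≤ ‖X θ - 1‖ * ‖2 * X θ - 1‖ :=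
      mul_le_mul (hB.x1lo θ) (hB.x2lo θ) p₂.le (norm_nonneg _)
    exact h3.trans (c1.trans (mul_le_mul_of_nonneg_left h4 hδ0))
  have hCD : Cp D := by
    rw [hD]
    refine Cp.div ?_ ?_ (fun θ => mul_ne_zero (z1 θ) (z2 θ))
    · refine ((Cp.const t).mul hX).mul (((((Cp.const 2).mul (hX.mul hX)).sub
        ((Cp.const 2).mul hX)).add (Cp.const 1))) |> fun h => ?_
      refine ⟨?_, ?_⟩
      · have := h.smooth
        simpa only [pow_two] using this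
      · intro θ
        have := h.periodic θ
        simpa only [pow_two] using this
    · exact (hX.sub (Cp.const 1)).mul (((Cp.const 2).mul hX).sub (Cp.const 1))
  set P : ℝ → ℂ := fun θ => -(2 * X θ - 1) / (t * X θ ^ 2) * (1 - D θ) with hP
  have hCP : Cp P := by
    rw [hP]
    refine Cp.mul ?_ ((Cp.const 1).sub hCD)
    have h := Cp.div ((Cp.const 1).sub ((Cp.const 2).mul hX)) ((Cp.const t).mul (hX.mul hX))
      (fun θ => mul_ne_zero ht (mul_ne_zero (z0 θ) (z0 θ)))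
    have e : (fun θ => -(2 * X θ - 1) / (t * X θ ^ 2)) =
        fun θ => (1 - 2 * X θ) / (t * (X θ * X θ)) := by
      funext θ
      rw [pow_two]
      congr 1
      ring
    rw [e]
    exact h
  have h1D : ∀ θ, 1 - δ ≤ ‖1 - D θ‖ := by
    intro θ
    have := norm_sub_norm_le (1 : ℂ) (D θ)
    rw [norm_one] at this
    have h2 := hDn θ
    linarith
  have hPn : ∀ θ, 10 ≤ ‖P θ‖ := by
    intro θ
    rw [hP]
    simp only [norm_mul, norm_div, norm_neg, norm_pow]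
    rw [div_mul_eq_mul_div, le_div_iff₀ (by have := norm_pos_iff.2 (z0 θ); positivity)]
    have h3 : ‖t‖ * ‖X θ‖ ^ 2 ≤ 1 / 50 * b₀ ^ 2 :=
      mul_le_mul ht1 (pow_le_pow_left₀ (norm_nonneg _) (hB.x0hi θ) 2) (by positivity)
        (by norm_num)
    have h4 : a₂ * (1 - δ) ≤ ‖2 * X θ - 1‖ * ‖1 - D θ‖ :=
      mul_le_mul (hB.x2lo θ) (h1D θ) (by linarith) (norm_nonneg _)
    linarith
  obtain ⟨φ, φs, φp, φ1, φq, φc⟩ := hPhi P 10 (by norm_num) hCP.smooth hCP.periodic hPn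
  have hdl : dl 10 ≤ 105 / 10000 :=
    (K2B.All.dl_le (s := 979 / 1000) (by norm_num)).trans (by norm_num)
  have hφ1 : ∀ θ, ‖φ θ - 1‖ ≤ 105 / 10000 := fun θ => (φ1 θ).trans hdl
  set H : ℝ → ℂ := fun θ => P θ * φ θ with hH
  set ψ : ℝ → ℂ := fun θ => (1 - D θ) * φ θ with hψ
  have hψ1 : ∀ θ, ‖ψ θ - 1‖ ≤ ε := by
    intro θ
    have e : ψ θ - 1 = (φ θ - 1) - D θ * (1 + (φ θ - 1)) := by
      rw [hψ]; ring
    rw [e]
    have h3 : ‖1 + (φ θ - 1)‖ ≤ 10105 / 10000 := by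
      refine (norm_add_le _ _).trans ?_
      rw [norm_one]
      have := hφ1 θ
      linarith
    have h4 : ‖D θ * (1 + (φ θ - 1))‖ ≤ δ * (10105 / 10000) := by
      rw [norm_mul]
      exact mul_le_mul (hDn θ) h3 (norm_nonneg _) hδ0
    have h5 := norm_sub_le (φ θ - 1) (D θ * (1 + (φ θ - 1)))
    have h6 := hφ1 θ
    linarith
  have hψlo : ∀ θ, 1 - ε ≤ ‖ψ θ‖ := by
    intro θ
    have e : (1 : ℂ) = ψ θ - (ψ θ - 1) := by ring
    have h1 := norm_sub_le (ψ θ) (ψ θ - 1)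
    rw [← e, norm_one] at h1
    have := hψ1 θ
    linarith
  have hHe : ∀ θ, H θ * (t * X θ ^ 2) = -(2 * X θ - 1) * ψ θ := by
    intro θ
    rw [hH, hψ, hP]
    have h0 := z0 θ
    field_simp
  have hHlo : ∀ θ, a₂ * (1 - ε) ≤ ‖H θ‖ * (1 / 50 * b₀ ^ 2) := by
    intro θ
    have h1 : ‖H θ‖ * (‖t‖ * ‖X θ‖ ^ 2) = ‖2 * X θ - 1‖ * ‖ψ θ‖ := by
      have h7 : ‖H θ‖ * (‖t‖ * ‖X θ‖ ^ 2) = ‖H θ * (t * X θ ^ 2)‖ := by
        rw [norm_mul (H θ), norm_mul t, norm_pow]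
      rw [h7, hHe θ, norm_mul, norm_neg]
    have h3 : ‖t‖ * ‖X θ‖ ^ 2 ≤ 1 / 50 * b₀ ^ 2 :=
      mul_le_mul ht1 (pow_le_pow_left₀ (norm_nonneg _) (hB.x0hi θ) 2) (by positivity)
        (by norm_num)
    have h4 : a₂ * (1 - ε) ≤ ‖2 * X θ - 1‖ * ‖ψ θ‖ :=
      mul_le_mul (hB.x2lo θ) (hψlo θ) (by linarith) (norm_nonneg _)
    have h5 := mul_le_mul_of_nonneg_left h3 (norm_nonneg (H θ))
    linarith
  have hHbig : ∀ θ, 1 < ‖H θ‖ := by
    intro θ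
    rw [hH]
    simp only [norm_mul]
    have h1 := hPn θ
    have h2 : 9 / 10 ≤ ‖φ θ‖ := by
      have e : (1 : ℂ) = φ θ - (φ θ - 1) := by ring
      have h1 := norm_sub_le (φ θ) (φ θ - 1)
      rw [← e, norm_one] at h1
      have := hφ1 θ
      linarith
    nlinarith
  have hH0 : ∀ θ, H θ ≠ 0 := fun θ => ne_of_le zero_lt_one (hHbig θ).le
  have hH1 : ∀ θ, H θ - 1 ≠ 0 := by
    intro θ h
    have : H θ = 1 := sub_eq_zero.1 h
    have h2 := hHbig θ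
    rw [this, norm_one] at h2
    exact lt_irrefl _ h2
  have hHm : ∀ θ, H θ + 1 ≠ 0 := by
    intro θ h
    have : H θ = -1 := eq_neg_of_add_eq_zero_left h
    have h2 := hHbig θ
    rw [this, norm_neg, norm_one] at h2
    exact lt_irrefl _ h2
  set E : ℝ → ℂ := fun θ => X θ / ((1 - X θ) * H θ) with hE
  set N : ℝ → ℂ := fun θ => (1 - X θ) / (X θ * H θ) with hN
  have n1' : ∀ θ, ‖1 - X θ‖ = ‖X θ - 1‖ := fun θ => norm_sub_rev _ _
  have hbb : 0 < 1 / 50 * b₀ ^ 2 := by positivity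
  have hEn : ∀ θ, ‖E θ‖ ≤ ζ := by
    intro θ
    rw [hE]
    simp only [norm_div, norm_mul, n1']
    have hHp : 0 < ‖H θ‖ := norm_pos_iff.2 (hH0 θ)
    have hXp : 0 < ‖X θ - 1‖ := norm_pos_iff.2 (z1 θ)
    rw [div_le_iff₀ (mul_pos hXp hHp)]
    have hζ0 : 0 ≤ ζ := by
      by_contra hc
      have h8 : ζ * (a₁ * (a₂ * (1 - ε))) ≤ 0 :=
        mul_nonpos_of_nonpos_of_nonneg (not_le.1 hc).le
          (mul_nonneg p₁.le (mul_nonneg p₂.le (by linarith)))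
      have h9 : 0 < 1 / 50 * b₀ ^ 2 * b₀ := by positivity
      linarith
    have h1 : a₁ * (a₂ * (1 - ε)) ≤ ‖X θ - 1‖ * (‖H θ‖ * (1 / 50 * b₀ ^ 2)) :=
      mul_le_mul (hB.x1lo θ) (hHlo θ) (mul_nonneg p₂.le (by linarith)) (norm_nonneg _)
    have h2 := c5.trans (mul_le_mul_of_nonneg_left h1 hζ0)
    have h3 : b₀ ≤ ζ * (‖X θ - 1‖ * ‖H θ‖) := by
      apply le_of_mul_le_mul_left _ hbb
      linarith
    exact (hB.x0hi θ).trans h3
  have hNn : ∀ θ, ‖N θ‖ ≤ η := by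
    intro θ
    rw [hN]
    simp only [norm_div, norm_mul, n1']
    have hHp : 0 < ‖H θ‖ := norm_pos_iff.2 (hH0 θ)
    have hXp : 0 < ‖X θ‖ := norm_pos_iff.2 (z0 θ)
    rw [div_le_iff₀ (mul_pos hXp hHp)]
    have hη0 : 0 ≤ η := by
      by_contra hc
      have h8 : η * (a₀ * (a₂ * (1 - ε))) ≤ 0 :=
        mul_nonpos_of_nonpos_of_nonneg (not_le.1 hc).le
          (mul_nonneg p₀.le (mul_nonneg p₂.le (by linarith)))
      have h9 : 0 < 1 / 50 * b₀ ^ 2 * b₁ := by positivity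
      linarith
    have h1 : a₀ * (a₂ * (1 - ε)) ≤ ‖X θ‖ * (‖H θ‖ * (1 / 50 * b₀ ^ 2)) :=
      mul_le_mul (hB.x0lo θ) (hHlo θ) (mul_nonneg p₂.le (by linarith)) (norm_nonneg _)
    have h2 := c4.trans (mul_le_mul_of_nonneg_left h1 hη0)
    have h3 : b₁ ≤ η * (‖X θ‖ * ‖H θ‖) := by
      apply le_of_mul_le_mul_left _ hbb
      linarith
    exact (hB.x1hi θ).trans h3
  have one_add_ne : ∀ (z : ℂ) (c : ℝ), ‖z‖ ≤ c → c < 1 → 1 + z ≠ 0 := by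
    intro z c h1 h2 h3
    have : z = -1 := by linear_combination h3
    rw [this, norm_neg, norm_one] at h1
    linarith
  have hdne : ∀ θ, 1 + E θ ≠ 0 := fun θ => one_add_ne _ _ (hEn θ) hζ
  have hnne : ∀ θ, 1 + N θ ≠ 0 := fun θ => one_add_ne _ _ (hNn θ) hη
  have hψne : ∀ θ, ψ θ ≠ 0 := fun θ => ne_of_le (by linarith) (hψlo θ)
  have hCφ : Cp φ := ⟨φs, φp⟩
  have hCH : Cp H := hCP.mul hCφ
  have hCψ : Cp ψ := ((Cp.const 1).sub hCD).mul hCφ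
  have hC1X : Cp (fun θ => 1 - X θ) := (Cp.const 1).sub hX
  have hCE : Cp (fun θ => 1 + E θ) := (Cp.const 1).add
    (hX.div (hC1X.mul hCH) (fun θ => mul_ne_zero (z1' θ) (hH0 θ)))
  have hCN : Cp (fun θ => 1 + N θ) := (Cp.const 1).add
    (hC1X.div (hX.mul hCH) (fun θ => mul_ne_zero (z0 θ) (hH0 θ)))
  have hCA : Cp (fun θ => vA t (X θ)) :=
    ((Cp.const t).mul hX).sub ((((Cp.const 2).mul hX).sub (Cp.const 1)).mul
      (hX.sub (Cp.const 1)))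
  have hCY : Cp (fun θ => vA t (X θ) * (H θ + 1) / (H θ - 1)) :=
    (hCA.mul (hCH.add (Cp.const 1))).div (hCH.sub (Cp.const 1)) hH1
  have hal := fun θ => alg t (X θ) (φ θ) ht (z0 θ) (z1 θ) (z2 θ) (hA θ) (P θ) (H θ)
    (vA t (X θ) * (H θ + 1) / (H θ - 1)) rfl rfl (φq θ) (hH0 θ) (hH1 θ) (hdne θ) rfl
  have nψ : Nz ψ := hCψ.nz hψne
  have nd : Nz (fun θ => 1 + E θ) := hCE.nz hdne
  have nn : Nz (fun θ => 1 + N θ) := hCN.nz hnne
  have nX : Nz X := hX.nz z0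
  have nX1 : Nz (fun θ => X θ - 1) := (hX.sub (Cp.const 1)).nz z1
  have nH : Nz H := hCH.nz hH0
  refine ⟨⟨fun θ => vA t (X θ) * (H θ + 1) / (H θ - 1), ψ, fun θ => 1 + N θ,
    fun θ => 1 + E θ, hCY, fun θ => div_ne_zero (mul_ne_zero (hA θ) (hHm θ)) (hH1 θ),
    fun θ => (hal θ).1, ?_, ?_, nψ, nn, nd, fun θ => (hal θ).2.2.1,
    fun θ => (hal θ).2.2.2, hψ1, ?_, ?_, ?_⟩⟩
  · have e : (fun θ => vh t (X θ) (vA t (X θ) * (H θ + 1) / (H θ - 1))) = fun θ => 1 / H θ := by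
      funext θ
      rw [(hal θ).2.1, one_div]
    rw [e]
    exact ((Cp.const 1).div hCH hH0).nz fun θ => one_div_ne_zero (hH0 θ)
  · have e : (fun θ => vg t (X θ) (vA t (X θ) * (H θ + 1) / (H θ - 1))) =
        fun θ => X θ * (1 + N θ) / ((-1) * ((X θ - 1) * (1 + E θ))) := by
      funext θ
      rw [eq_div_iff (mul_ne_zero (neg_ne_zero.2 one_ne_zero) (mul_ne_zero (z1 θ) (hdne θ)))]
      exact (hal θ).2.2.2
    rw [e]
    refine (Cp.div (hX.mul hCN) ((Cp.const (-1)).mul ((hX.sub (Cp.const 1)).mul hCE))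
      (fun θ => mul_ne_zero (neg_ne_zero.2 one_ne_zero) (mul_ne_zero (z1 θ) (hdne θ)))).nz ?_
    intro θ
    exact div_ne_zero (mul_ne_zero (z0 θ) (hnne θ))
      (mul_ne_zero (neg_ne_zero.2 one_ne_zero) (mul_ne_zero (z1 θ) (hdne θ)))
  · intro θ
    show ‖1 + N θ - 1‖ ≤ η
    rw [add_sub_cancel_left]
    exact hNn θ
  · intro θ
    show ‖1 + E θ - 1‖ ≤ ζ
    rw [add_sub_cancel_left]
    exact hEn θ
  · intro hct hcX θ
    have hDc : ∀ θ, D (-θ) = (starRingEnd ℂ) (D θ) := by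
      intro θ
      rw [hD]
      simp only [hcX, map_div₀, map_mul, map_sub, map_add, map_pow, map_one, map_ofNat, hct]
    have hPc : ∀ θ, P (-θ) = (starRingEnd ℂ) (P θ) := by
      intro θ
      rw [hP]
      simp only [hcX, hDc, map_div₀, map_mul, map_sub, map_neg, map_pow, map_one, map_ofNat, hct]
    have hHc : ∀ θ, H (-θ) = (starRingEnd ℂ) (H θ) := by
      intro θ
      rw [hH]
      simp only [hPc, φc hPc, map_mul]
    show vA t (X (-θ)) * (H (-θ) + 1) / (H (-θ) - 1) = _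
    unfold vA
    simp only [hcX, hHc, map_div₀, map_mul, map_sub, map_add, map_one, map_ofNat, hct]

end Est

end

end Pool.Agent.K2G
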