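import Pool.Agent.K2G.Defs
import Pool.Agent.K2C.EVAL2

/-!
# The function field and its loops
-/

set_option autoImplicit false

open Polynomial NumberField

namespace Pool.Agent.K2G

open Pool.Agent.BEK Pool.Agent.K2B Pool.Agent.K2C

noncomputable section

/-- the value `A` -/
def vA (t x : ℂ) : ℂ := t * x - (2 * x - 1) * (x - 1)

/-- the value `B` -/
def vB (t x : ℂ) : ℂ := t * x * (2 * x - 1) - (x - 1)

/-- the point lies on the curve -/
def OnC (t x y : ℂ) : Prop := y ^ 2 = (2 * x - 1) * vA t x * vB t x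

namespace Fld

variable {k : Type} [Field k] [NumberField k] (t : (𝓞 k)ˣ)

theorem halg (a : k) : algebraMap k[X] (RatFunc k) (C a) = RatFunc.C a :=
  RatFunc.algebraMap_C a

theorem of_alg_X : ofR t (algebraMap k[X] (RatFunc k) X) = fx t := by
  rw [RatFunc.algebraMap_X]
  rfl

theorem of_alg_C (a : k) : ofR t (algebraMap k[X] (RatFunc k) (C a)) = cst t a := by
  rw [halg]
  rfl

/-- the function `B` -/
def fB : FC t := cst t ((t : 𝓞 k) : k) * fx t * (2 * fx t - 1) - (fx t - 1)

theorem of_quintic : ofR t (algebraMap k[X] (RatFunc k) (quintic ((t : 𝓞 k) : k))) =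
    (2 * fx t - 1) * fA t * fB t := by
  unfold quintic polA polB fA fB
  simp only [map_mul, map_sub, of_alg_X, of_alg_C, map_one, map_ofNat]

theorem rel : fy t ^ 2 = (2 * fx t - 1) * fA t * fB t := by
  have h0 : (eqn t).eval₂ (ofR t) (fy t) = 0 := AdjoinRoot.eval₂_root (eqn t)
  unfold eqn at h0
  rw [eval₂_sub, eval₂_pow, eval₂_X, eval₂_C, of_quintic] at h0
  exact sub_eq_zero.1 h0

theorem fx_ne (a : k) : fx t ≠ cst t a := by
  intro h
  have h1 : (RatFunc.X : RatFunc k) = RatFunc.C a := (ofR t).injective h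
  rw [← RatFunc.algebraMap_X, ← halg] at h1
  have h2 := RatFunc.algebraMap_injective k h1
  have h3 := congrArg natDegree h2
  rw [natDegree_X, natDegree_C] at h3
  omega

theorem gen (S : Subfield (FC t)) (hS : ∀ a, cst t a ∈ S) (hX : fx t ∈ S) (hY : fy t ∈ S) :
    S = ⊤ := by
  have h1 : ∀ r : k[X], ofR t (algebraMap k[X] (RatFunc k) r) ∈ S := by
    intro r
    induction r using Polynomial.induction_on' with
    | add p q hp hq =>
      rw [map_add, map_add]
      exact S.add_mem hp hq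
    | monomial n a =>
      rw [← C_mul_X_pow_eq_monomial, map_mul, map_mul, map_pow, map_pow, of_alg_C, of_alg_X]
      exact S.mul_mem (hS a) (S.pow_mem hX n)
  have h2 : ∀ r : RatFunc k, ofR t r ∈ S := by
    intro r
    obtain ⟨a, b, hb, rfl⟩ := IsFractionRing.div_surjective (A := k[X]) r
    rw [map_div₀]
    exact S.div_mem (h1 a) (h1 b)
  have h3 : ∀ P : (RatFunc k)[X], (AdjoinRoot.mk (eqn t) P : FC t) ∈ S := by
    intro P
    induction P using Polynomial.induction_on' with
    | add p q hp hq =>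
      rw [map_add]
      exact S.add_mem hp hq
    | monomial n a =>
      rw [← C_mul_X_pow_eq_monomial, map_mul, map_pow]
      exact S.mul_mem (h2 a) (S.pow_mem hY n)
  rw [eq_top_iff]
  intro f _
  obtain ⟨P, rfl⟩ := AdjoinRoot.mk_surjective (g := eqn t) f
  exact h3 P

theorem root_eq (σ : k →+* ℂ) (X Y : ℂ) (hX : ∀ f : k[X], f ≠ 0 → (f.map σ).eval X ≠ 0)
    (h : OnC (σ ((t : 𝓞 k) : k)) X Y) : (eqn t).eval₂ (EvalTwo.evr σ X hX) Y = 0 := by
  unfold eqn
  rw [eval₂_sub, eval₂_pow, eval₂_X, eval₂_C, EvalTwo.evr_alg, h, sub_eq_zero]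
  unfold quintic polA polB vA vB
  simp only [eval₂_mul, eval₂_sub, eval₂_C, eval₂_X, eval₂_one, eval₂_ofNat]

theorem eval (σ : k →+* ℂ) (X Y : ℂ) (hX : ∀ f : k[X], f ≠ 0 → (f.map σ).eval X ≠ 0)
    (h : OnC (σ ((t : 𝓞 k) : k)) X Y) :
    ∃ e : FC t →+* ℂ, (∀ a, e (cst t a) = σ a) ∧ e (fx t) = X ∧ e (fy t) = Y := by
  have e1 : ∀ r : RatFunc k, (AdjoinRoot.lift (EvalTwo.evr σ X hX) Y (root_eq t σ X Y hX h) :
      AdjoinRoot (eqn t) →+* ℂ) (AdjoinRoot.of (eqn t) r) = EvalTwo.evr σ X hX r := fun r =>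
    AdjoinRoot.lift_of _
  refine ⟨(AdjoinRoot.lift (EvalTwo.evr σ X hX) Y (root_eq t σ X Y hX h) :
    AdjoinRoot (eqn t) →+* ℂ), ?_, ?_, ?_⟩
  · intro a
    exact (e1 _).trans (EvalTwo.evr_C σ X hX a)
  · exact (e1 _).trans (EvalTwo.evr_X σ X hX)
  · exact AdjoinRoot.lift_root _

theorem floop (σ : k →+* ℂ) (X Y : ℝ → ℂ) (hX : ContDiff ℝ 1 X) (hY : ContDiff ℝ 1 Y)
    (pX : ∀ θ, X (θ + 2 * Real.pi) = X θ) (pY : ∀ θ, Y (θ + 2 * Real.pi) = Y θ)
    (hXY : ∀ θ, OnC (σ ((t : 𝓞 k) : k)) (X θ) (Y θ))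
    (hT : ∀ θ (f : k[X]), f ≠ 0 → (f.map σ).eval (X θ) ≠ 0) :
    ∃ γ : Loop (FC t), Over γ σ ∧ (∀ θ, γ.ev θ (fx t) = X θ) ∧ (∀ θ, γ.ev θ (fy t) = Y θ) ∧
      ((∀ a, (σ a).im = 0) → (∀ θ, X (-θ) = (starRingEnd ℂ) (X θ)) →
        (∀ θ, Y (-θ) = (starRingEnd ℂ) (Y θ)) → Anti γ) := by
  have hex : ∀ θ, ∃ e : FC t →+* ℂ, (∀ a, e (cst t a) = σ a) ∧ e (fx t) = X θ ∧
      e (fy t) = Y θ := fun θ => eval t σ (X θ) (Y θ) (hT θ) (hXY θ)
  choose ev hK hx hy using hex
  have hgen := gen t
  have hext : ∀ a b : FC t →+* ℂ, (∀ c, a (cst t c) = b (cst t c)) →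
      a (fx t) = b (fx t) → a (fy t) = b (fy t) → a = b := by
    intro a b h1 h2 h3
    have := hgen (RingHom.eqLocusField a b) h1 h2 h3
    apply RingHom.ext
    intro f
    have hf : f ∈ RingHom.eqLocusField a b := by rw [this]; trivial
    exact hf
  have hsm : ∀ f : FC t, ContDiff ℝ 1 fun θ => ev θ f := by
    let S : Subfield (FC t) :=
      { carrier := {f | ContDiff ℝ 1 fun θ => ev θ f}
        mul_mem' := by
          intro a b ha hb
          show ContDiff ℝ 1 fun θ => ev θ (a * b)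
          simp only [map_mul]
          exact ContDiff.mul ha hb
        one_mem' := by
          show ContDiff ℝ 1 fun θ => ev θ 1
          simp only [map_one]
          exact contDiff_const
        add_mem' := by
          intro a b ha hb
          show ContDiff ℝ 1 fun θ => ev θ (a + b)
          simp only [map_add]
          exact ContDiff.add ha hb
        zero_mem' := by
          show ContDiff ℝ 1 fun θ => ev θ 0
          simp only [map_zero]
          exact contDiff_const
        neg_mem' := by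
          intro a ha
          show ContDiff ℝ 1 fun θ => ev θ (-a)
          simp only [map_neg]
          exact ContDiff.neg ha
        inv_mem' := by
          intro a ha
          show ContDiff ℝ 1 fun θ => ev θ a⁻¹
          by_cases h0 : a = 0
          · subst h0
            simp only [inv_zero, map_zero]
            exact contDiff_const
          · simp only [map_inv₀]
            exact ContDiff.inv ha (fun θ => (map_ne_zero (ev θ)).2 h0) }
    have hS : S = ⊤ := by
      apply hgen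
      · intro c
        show ContDiff ℝ 1 fun θ => ev θ (cst t c)
        simp only [hK]
        exact contDiff_const
      · show ContDiff ℝ 1 fun θ => ev θ (fx t)
        simp only [hx]
        exact hX
      · show ContDiff ℝ 1 fun θ => ev θ (fy t)
        simp only [hy]
        exact hY
    intro f
    have hf : f ∈ S := by rw [hS]; trivial
    exact hf
  refine ⟨⟨ev, hsm, fun θ => ?_⟩, hK, hx, hy, fun hr sX sY θ f => ?_⟩
  · apply hext
    · intro c
      rw [hK, hK]
    · rw [hx, hx, pX]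
    · rw [hy, hy, pY]
  · have h := hext (ev (-θ)) ((starRingEnd ℂ).comp (ev θ)) (by
      intro c
      rw [RingHom.comp_apply, hK, hK]
      exact (Complex.conj_eq_iff_im.2 (hr c)).symm) (by rw [RingHom.comp_apply, hx, hx, sX])
      (by rw [RingHom.comp_apply, hy, hy, sY])
    show ev (-θ) f = _
    rw [h]
    rfl

end Fld

end

end Pool.Agent.K2G
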