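import Pool.Agent.K2B.INTEG

/-!
# The tame symbols

`t x (Z + x) (Z - x + 1) = (2 x - 1) (x - 1) Z (Z + 1)` with `t` a unit: the tame symbols of
`{Z/(Z+1), x-1}`, `{Z/(Z+1), 2x-1}`, `{(Z+x)/(Z-x+1), x}`, `{(Z+x)/(Z-x+1), 2x-1}` are roots of
unity.
-/

set_option autoImplicit false

namespace Pool.Agent.K2G

open Pool.Agent.BEK Pool.Agent.BEK.Unr Pool.Agent.K2B.Integ

namespace Integ

variable {F : Type} [Field F] {v : DV F}

/-- the three ultrametric inequalities -/
def Tri (a b c : ℤ) : Prop := min a b ≤ c ∧ min a c ≤ b ∧ min b c ≤ a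

theorem tri_add {x y z : F} (hx : x ≠ 0) (hy : y ≠ 0) (hz : z ≠ 0) (h : x + y = z) :
    Tri (o v x) (o v y) (o v z) := by
  refine ⟨?_, ?_, ?_⟩
  · rw [← h]
    exact o_add v hx hy (by rw [h]; exact hz)
  · have e : z + -x = y := by rw [← h]; ring
    have := o_add v hz (neg_ne_zero.2 hx) (by rw [e]; exact hy)
    rw [o_neg, e] at this
    rwa [min_comm]
  · have e : z + -y = x := by rw [← h]; ring
    have := o_add v hz (neg_ne_zero.2 hy) (by rw [e]; exact hx)
    rw [o_neg, e] at this
    rwa [min_comm]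


/-! ### integers -/

section ints

variable {A Q P R S B C : ℤ}

theorem j1 (T1 : Tri Q 0 A) (T2 : Tri R 0 S) (T4 : Tri A Q P) (T5 : Tri R A B) (T7 : Tri C Q R)
    (hE : A + B + C = P + Q + (R + S)) (hA : A < 0) : R < 0 := by
  unfold Tri at *
  by_contra hR
  have h1 : Q = A := by omega
  have h2 : B = A := by omega
  have h3 : C = A := by omega
  have h4 : 0 ≤ S := by omega
  omega

theorem j2 (T2 : Tri R 0 S) (hR : R < 0) : S = R := by
  unfold Tri at *
  omega

theorem j3 (T1 : Tri Q 0 A) (T7 : Tri C Q R) (hA : A < 0) (h : A < R) : C = A := by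
  unfold Tri at *
  omega

theorem j4 (T1 : Tri Q 0 A) (T2 : Tri R 0 S) (T3 : Tri P C B) (T4 : Tri A Q P) (T5 : Tri R A B)
    (T7 : Tri C Q R) (hE : A + B + C = P + Q + (R + S)) (hA : A < 0) (h : R ≤ A) : C < P := by
  unfold Tri at *
  have h1 : Q = A := by omega
  have h2 : S = R := by omega
  rcases lt_or_eq_of_le h with h3 | h3
  · have h4 : C = R := by omega
    omega
  · have h4 : A ≤ B := by omega
    have h5 : A ≤ C := by omega
    have h6 : B + C = P + 2 * A := by omega
    by_contra h7
    rcases lt_or_eq_of_le (not_lt.1 h7) with h8 | h8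
    · have h9 : B = P := by omega
      omega
    · omega

theorem j5 (T1 : Tri Q 0 A) (T4 : Tri A Q P) (T7 : Tri C Q R) (hA : ¬ A < 0) (h : R < 0) :
    C < P := by
  unfold Tri at *
  have h1 : 0 ≤ Q := by omega
  have h2 : 0 ≤ P := by omega
  omega

theorem j6 (T1 : Tri Q 0 A) (T2 : Tri R 0 S) (T4 : Tri A Q P) (T5 : Tri R A B) (T7 : Tri C Q R)
    (hA : ¬ A < 0) (hR : ¬ R < 0) : 0 ≤ A ∧ 0 ≤ Q ∧ 0 ≤ P ∧ 0 ≤ R ∧ 0 ≤ S ∧ 0 ≤ B ∧ 0 ≤ C := by
  unfold Tri at *
  have h1 : 0 ≤ Q := by omega
  have h2 : 0 ≤ P := by omega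
  have h3 : 0 ≤ S := by omega
  have h4 : 0 ≤ B := by omega
  have h5 : 0 ≤ C := by omega
  omega

/-- `Q > 0`, `R > 0` -/
theorem j7 (T1 : Tri Q 0 A) (T2 : Tri R 0 S) (T4 : Tri A Q P) (T6 : Tri S Q B) (T7 : Tri C Q R)
    (hE : A + B + C = P + Q + (R + S)) (hQ : 0 < Q) (hR : 0 < R) : Q < C := by
  unfold Tri at *
  have h1 : A = 0 := by omega
  have h2 : P = 0 := by omega
  have h3 : S = 0 := by omega
  have h4 : B = 0 := by omega
  omega

/-- `Q > 0`, `S > 0` -/
theorem j8 (T1 : Tri Q 0 A) (T2 : Tri R 0 S) (T4 : Tri A Q P) (T6 : Tri S Q B) (T7 : Tri C Q R)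
    (hE : A + B + C = P + Q + (R + S)) (hQ : 0 < Q) (hS : 0 < S) : Q < B := by
  unfold Tri at *
  have h1 : A = 0 := by omega
  have h2 : P = 0 := by omega
  have h3 : R = 0 := by omega
  have h4 : C = 0 := by omega
  omega

/-- `Q > 0`, `R = S = 0` is impossible -/
theorem j9 (T1 : Tri Q 0 A) (T4 : Tri A Q P) (T6 : Tri S Q B) (T7 : Tri C Q R)
    (hE : A + B + C = P + Q + (R + S)) (hQ : 0 < Q) (hR : R = 0) (hS : S = 0) : False := by
  unfold Tri at *
  have h1 : A = 0 := by omega
  have h2 : P = 0 := by omega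
  have h3 : B = 0 := by omega
  have h4 : C = 0 := by omega
  omega

/-- `Q = 0`, `P > 0` -/
theorem j10 (T3 : Tri P C B) (T4 : Tri A Q P) (T5 : Tri R A B) (T6 : Tri S Q B)
    (hE : A + B + C = P + Q + (R + S)) (hQ : Q = 0) (hP : 0 < P) (hR : 0 ≤ R) (hS : 0 ≤ S)
    (hB : 0 ≤ B) (hC : 0 ≤ C) : S = 0 ∧ 0 < B ∧ 0 < C ∧ C < P := by
  unfold Tri at *
  have h1 : A = 0 := by omega
  have h2 : 0 < B := by omega
  have h3 : 0 < C := by omega
  have h4 : R = 0 := by omega
  have h5 : S = 0 := by omega
  omega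

/-- `A > 0`, `R > 0` -/
theorem j11 (T1 : Tri Q 0 A) (T2 : Tri R 0 S) (T5 : Tri R A B) (T8 : Tri C A S)
    (hE : A + B + C = P + Q + (R + S)) (hQ : Q = 0) (hP : P = 0) (hA : 0 < A) (hR : 0 < R) :
    A < R := by
  unfold Tri at *
  have h1 : S = 0 := by omega
  have h2 : C = 0 := by omega
  omega

/-- `A > 0`, `S > 0` -/
theorem j12 (T1 : Tri Q 0 A) (T2 : Tri R 0 S) (T5 : Tri R A B) (T8 : Tri C A S)
    (hE : A + B + C = P + Q + (R + S)) (hQ : Q = 0) (hP : P = 0) (hA : 0 < A) (hS : 0 < S) :
    A < S := by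
  unfold Tri at *
  have h1 : R = 0 := by omega
  have h2 : B = 0 := by omega
  omega

/-- all units -/
theorem j13 (T2 : Tri R 0 S) (T5 : Tri R A B) (T6 : Tri S Q B) (T7 : Tri C Q R) (T8 : Tri C A S)
    (hE : A + B + C = P + Q + (R + S)) (hQ : Q = 0) (hP : P = 0) (hA : A = 0) (hR : 0 ≤ R)
    (hS : 0 ≤ S) (hB : 0 ≤ B) (hC : 0 ≤ C) : R = 0 ∧ S = 0 ∧ B = 0 ∧ C = 0 := by
  unfold Tri at *
  by_cases h1 : 0 < R
  · have h2 : S = 0 := by omega
    have h3 : B = 0 := by omega
    have h4 : C = 0 := by omega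
    omega
  · by_cases h2 : 0 < S
    · have h3 : B = 0 := by omega
      have h4 : C = 0 := by omega
      omega
    · omega

end ints

theorem M_of {x : F} (h : 0 < o v x) : M v x := Or.inr h

theorem M_div {x y : F} (hx : x ≠ 0) (hy : y ≠ 0) (h : o v y < o v x) : M v (x / y) := by
  right
  rw [o_div v hx hy]
  omega

/-- `u` is congruent to `1` or `-1` -/
def Pm (v : DV F) (u : F) : Prop := M v (u - 1) ∨ M v (u + 1)

theorem Pm.sq {u : Fˣ} (h : Pm v (u : F)) : u ^ 2 ∈ v.U1 := by
  apply mem_U1
  rw [Units.val_pow_eq_pow_val]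
  rcases h with h | h
  · have : Eqv v ((u : F) ^ 2) (1 ^ 2) := Eqv.pow ⟨Un_one, h⟩ 2
    rwa [one_pow] at this
  · have h1 : Eqv v (u : F) (-1) := ⟨Un_one.neg, by rw [sub_neg_eq_add]; exact h⟩
    have h2 := h1.pow 2
    rwa [neg_one_sq] at h2

theorem Pm.ord {u : Fˣ} (h : Pm v (u : F)) : v.ord u = 0 := by
  have h1 := (h.sq).1
  have h2 := v.zpow u 2
  rw [zpow_ofNat] at h2
  rw [h2] at h1
  omega

theorem tame_left {u w : Fˣ} (h : Pm v (u : F)) : v.tame u w ^ 4 = 1 := by
  apply pow_four_of_mem
  have h1 : ((v.tu u w : v.U) : Fˣ) = u ^ v.ord w := by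
    show (-1) ^ (v.ord u * v.ord w) * u ^ v.ord w * (w ^ v.ord u)⁻¹ = _
    rw [h.ord]
    simp
  have h2 : (u ^ v.ord w) ^ 4 = (u ^ 2) ^ (2 * v.ord w) := by
    rw [← zpow_natCast, ← zpow_natCast, ← zpow_mul, ← zpow_mul]
    congr 1
    push_cast
    ring
  rw [h1, h2]
  exact zpow_mem h.sq _

theorem tame_right {u w : Fˣ} (h : Pm v (w : F)) : v.tame u w ^ 4 = 1 := by
  apply pow_four_of_mem
  have h1 : ((v.tu u w : v.U) : Fˣ) = (w ^ v.ord u)⁻¹ := by
    show (-1) ^ (v.ord u * v.ord w) * u ^ v.ord w * (w ^ v.ord u)⁻¹ = _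
    rw [h.ord]
    simp
  have h2 : ((w ^ v.ord u)⁻¹) ^ 4 = (w ^ 2) ^ (-(2 * v.ord u)) := by
    rw [inv_pow, zpow_neg, ← zpow_natCast, ← zpow_natCast, ← zpow_mul, ← zpow_mul]
    congr 2
    push_cast
    ring
  rw [h1, h2]
  exact zpow_mem h.sq _

theorem tame_unit {u w : Fˣ} (hu : v.ord u = 0) (hw : v.ord w = 0) : v.tame u w ^ 4 = 1 := by
  apply pow_four_of_mem
  have h1 : ((v.tu u w : v.U) : Fˣ) = 1 := by
    show (-1) ^ (v.ord u * v.ord w) * u ^ v.ord w * (w ^ v.ord u)⁻¹ = _
    rw [hu, hw]
    simp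
  rw [h1, one_pow]
  exact one_mem _

/-- `u = w e`, `e` congruent to `1` -/
theorem tame_one {u w : Fˣ} (h : Eqv v ((u : F) / (w : F)) 1) : v.tame u w ^ 4 = 1 := by
  have e : ((u / w : Fˣ) : F) = (u : F) / (w : F) := by simp
  refine tame_of_eq (e := u / w) 1 ?_ (mem_U1 (by rw [e]; exact h))
  rw [zpow_one, mul_div_cancel]

/-- `u = w⁻¹ e`, `e` congruent to `1` -/
theorem tame_neg_one {u w : Fˣ} (h : Eqv v ((u : F) * (w : F)) 1) : v.tame u w ^ 4 = 1 := by
  have e : ((u * w : Fˣ) : F) = (u : F) * (w : F) := by simp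
  refine tame_of_eq (e := u * w) (-1) ?_ (mem_U1 (by rw [e]; exact h))
  rw [zpow_neg_one, mul_comm u w, inv_mul_cancel_left]

theorem eqv_one {x : F} (h : M v (x - 1)) : Eqv v x 1 := ⟨Un_one, h⟩

theorem eqv_neg {x : F} (h : M v (x + 1)) : Eqv v x (-1) :=
  ⟨Un_one.neg, by rw [sub_neg_eq_add]; exact h⟩

/-- the conclusion -/
def Concl (v : DV F) (a q p r s b c : F) : Prop :=
  ∀ u w : Fˣ, (((u : F) = r / s ∧ ((w : F) = q ∨ (w : F) = p)) ∨
    ((u : F) = b / c ∧ ((w : F) = a ∨ (w : F) = p))) → v.tame u w ^ 4 = 1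

theorem concl_of {a q p r s b c : F}
    (h1 : ∀ u w : Fˣ, (u : F) = r / s → (w : F) = q → v.tame u w ^ 4 = 1)
    (h2 : ∀ u w : Fˣ, (u : F) = r / s → (w : F) = p → v.tame u w ^ 4 = 1)
    (h3 : ∀ u w : Fˣ, (u : F) = b / c → (w : F) = a → v.tame u w ^ 4 = 1)
    (h4 : ∀ u w : Fˣ, (u : F) = b / c → (w : F) = p → v.tame u w ^ 4 = 1) :
    Concl v a q p r s b c := by
  rintro u w (⟨hu, hw | hw⟩ | ⟨hu, hw | hw⟩)
  · exact h1 u w hu hw
  · exact h2 u w hu hw
  · exact h3 u w hu hw
  · exact h4 u w hu hw

theorem concl_pm {a q p r s b c : F} (h1 : Pm v (r / s)) (h2 : Pm v (b / c)) :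
    Concl v a q p r s b c :=
  concl_of (fun u w hu _ => tame_left (by rw [hu]; exact h1))
    (fun u w hu _ => tame_left (by rw [hu]; exact h1))
    (fun u w hu _ => tame_left (by rw [hu]; exact h2))
    (fun u w hu _ => tame_left (by rw [hu]; exact h2))

theorem main {a q p r s b c t : F} (ht : Un v t)
    (ha : a ≠ 0) (hq : q ≠ 0) (hp : p ≠ 0) (hr : r ≠ 0) (hs : s ≠ 0) (hb : b ≠ 0) (hc : c ≠ 0)
    (e1 : q + 1 = a) (e2 : r + 1 = s) (e3 : p + c = b) (e4 : a + q = p) (e5 : r + a = b)
    (e6 : s + q = b) (e7 : c + q = r) (e8 : c + a = s)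
    (heq : t * (a * b * c) = p * q * (r * s)) : Concl v a q p r s b c := by
  have T1 := tri_add (v := v) hq one_ne_zero ha e1
  have T2 := tri_add (v := v) hr one_ne_zero hs e2
  have T3 := tri_add (v := v) hp hc hb e3
  have T4 := tri_add (v := v) ha hq hp e4
  have T5 := tri_add (v := v) hr ha hb e5
  have T6 := tri_add (v := v) hs hq hb e6
  have T7 := tri_add (v := v) hc hq hr e7
  have T8 := tri_add (v := v) hc ha hs e8
  have hE := congrArg (o v) heq
  rw [o_mul v ht.1 (mul_ne_zero (mul_ne_zero ha hb) hc), o_mul v (mul_ne_zero ha hb) hc,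
    o_mul v ha hb, o_mul v (mul_ne_zero hp hq) (mul_ne_zero hr hs), o_mul v hp hq,
    o_mul v hr hs, ht.2] at hE
  rw [o_one] at T1 T2
  rw [zero_add] at hE
  have hrs : r / s - 1 = -(1 / s) := by
    field_simp
    rw [← e2]; ring
  have hrs' : r / s + 1 = (b + c) / s := by
    field_simp
    linear_combination e5 - e8
  have hbc : b / c - 1 = p / c := by
    field_simp
    rw [← e3]; ring
  have hbc' : b / c + 1 = (r + s) / c := by
    field_simp
    linear_combination e8 - e5
  by_cases hA : o v a < 0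
  · have hR0 := j1 T1 T2 T4 T5 T7 hE hA
    have hS := j2 T2 hR0
    have P1 : Pm v (r / s) := by
      left
      rw [hrs]
      exact (M_div one_ne_zero hs (by rw [o_one, hS]; exact hR0)).neg
    by_cases hR : o v a < o v r
    · refine concl_pm P1 (Or.inr ?_)
      rw [hbc']
      by_cases h0 : r + s = 0
      · rw [h0, zero_div]; exact Or.inl rfl
      · refine M_div h0 hc ?_
        have h1 := o_add v hr hs h0
        rw [hS, min_self] at h1
        rw [j3 T1 T7 hA hR]
        exact hR.trans_le h1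
    · refine concl_pm P1 (Or.inl ?_)
      rw [hbc]
      exact M_div hp hc (j4 T1 T2 T3 T4 T5 T7 hE hA (not_lt.1 hR))
  · by_cases hR : o v r < 0
    · refine concl_pm (Or.inl ?_) (Or.inl ?_)
      · rw [hrs]
        exact (M_div one_ne_zero hs (by rw [o_one, j2 T2 hR]; exact hR)).neg
      · rw [hbc]
        exact M_div hp hc (j5 T1 T4 T7 hA hR)
    · obtain ⟨gA, gQ, gP, gR, gS, gB, gC⟩ := j6 T1 T2 T4 T5 T7 hA hR
      by_cases hQ : 0 < o v q
      · -- `q` small
        have Mq : M v q := M_of hQ
        have Pa : Pm v a := Or.inl (by rw [← e1, add_sub_cancel_right]; exact Mq)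
        have Pp : Pm v p := Or.inl (by
          have : p - 1 = q + q := by rw [← e4, ← e1]; ring
          rw [this]; exact Mq.add Mq)
        refine concl_of ?_ (fun u w _ hw => tame_right (by rw [hw]; exact Pp))
          (fun u w _ hw => tame_right (by rw [hw]; exact Pa))
          (fun u w _ hw => tame_right (by rw [hw]; exact Pp))
        intro u w hu hw
        by_cases h1 : 0 < o v r
        · apply tame_one
          rw [hu, hw]
          have k1 : Eqv v (r / q) 1 := eqv_one (by
            have : r / q - 1 = c / q := by field_simp; rw [← e7]; ring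
            rw [this]
            exact M_div hc hq (j7 T1 T2 T4 T6 T7 hE hQ h1))
          have k2 : Eqv v s 1 := eqv_one (by
            rw [← e2, add_sub_cancel_right]; exact M_of h1)
          have k3 := k1.div k2
          rw [div_one] at k3
          have : r / s / q = r / q / s := by field_simp
          rw [this]; exact k3
        · by_cases h2 : 0 < o v s
          · apply tame_neg_one
            rw [hu, hw]
            have k1 : Eqv v (s / q) (-1) := eqv_neg (by
              have : s / q + 1 = b / q := by field_simp; rw [← e6]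
              rw [this]
              exact M_div hb hq (j8 T1 T2 T4 T6 T7 hE hQ h2))
            have k2 : Eqv v r (-1) := eqv_neg (by
              rw [e2]; exact M_of h2)
            have k3 := k2.div k1
            rw [div_self (neg_ne_zero.2 one_ne_zero)] at k3
            have : r / s * q = r / (s / q) := by field_simp
            rw [this]; exact k3
          · exact (j9 T1 T4 T6 T7 hE hQ (by omega) (by omega)).elim
      · have zQ : o v q = 0 := by omega
        by_cases hP : 0 < o v p
        · -- `p` small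
          obtain ⟨i1, i2, i3, i4⟩ := j10 T3 T4 T5 T6 hE zQ hP gR gS gB gC
          refine concl_pm (Or.inr ?_) (Or.inl ?_)
          · rw [hrs']
            by_cases h0 : b + c = 0
            · rw [h0, zero_div]; exact Or.inl rfl
            · refine M_div h0 hs ?_
              have := o_add v hb hc h0
              omega
          · rw [hbc]
            exact M_div hp hc i4
        · have zP : o v p = 0 := by omega
          by_cases hA' : 0 < o v a
          · have Ma : M v a := M_of hA'
            have Pq : Pm v q := Or.inr (by rw [e1]; exact Ma)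
            have Pp : Pm v p := Or.inr (by
              have : p + 1 = a + a := by rw [← e4, ← e1]; ring
              rw [this]; exact Ma.add Ma)
            refine concl_of (fun u w _ hw => tame_right (by rw [hw]; exact Pq))
              (fun u w _ hw => tame_right (by rw [hw]; exact Pp)) ?_
              (fun u w _ hw => tame_right (by rw [hw]; exact Pp))
            intro u w hu hw
            by_cases h1 : 0 < o v r
            · apply tame_one
              rw [hu, hw]
              have k1 : Eqv v (b / a) 1 := eqv_one (by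
                have : b / a - 1 = r / a := by field_simp; rw [← e5]; ring
                rw [this]
                exact M_div hr ha (j11 T1 T2 T5 T8 hE zQ zP hA' h1))
              have k2 : Eqv v c 1 := eqv_one (by
                have : c - 1 = r - a := by rw [← e7, ← e1]; ring
                rw [this]; exact (M_of h1).sub Ma)
              have k3 := k1.div k2
              rw [div_one] at k3
              have : b / c / a = b / a / c := by field_simp
              rw [this]; exact k3
            · by_cases h2 : 0 < o v s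
              · apply tame_neg_one
                rw [hu, hw]
                have k1 : Eqv v (c / a) (-1) := eqv_neg (by
                  have : c / a + 1 = s / a := by field_simp; rw [← e8]
                  rw [this]
                  exact M_div hs ha (j12 T1 T2 T5 T8 hE zQ zP hA' h2))
                have k2 : Eqv v b (-1) := eqv_neg (by
                  have : b + 1 = s + a := by rw [← e5, ← e2]; ring
                  rw [this]; exact (M_of h2).add Ma)
                have k3 := k2.div k1
                rw [div_self (neg_ne_zero.2 one_ne_zero)] at k3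
                have : b / c * a = b / (c / a) := by field_simp
                rw [this]; exact k3
              · exfalso
                have : o v a + o v b + o v c = 0 := by omega
                omega
          · -- everything is a unit
            have zA : o v a = 0 := by omega
            obtain ⟨z4, z5, z6, z7⟩ := j13 T2 T5 T6 T7 T8 hE zQ zP zA gR gS gB gC
            have hu1 : ∀ u : Fˣ, (u : F) = r / s → v.ord u = 0 := by
              intro u hu
              rw [← o_unit v u, hu, o_div v hr hs, z4, z5]; rfl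
            have hu2 : ∀ u : Fˣ, (u : F) = b / c → v.ord u = 0 := by
              intro u hu
              rw [← o_unit v u, hu, o_div v hb hc, z6, z7]; rfl
            exact concl_of
              (fun u w hu hw => tame_unit (hu1 u hu) (by rw [← o_unit v w, hw]; exact zQ))
              (fun u w hu hw => tame_unit (hu1 u hu) (by rw [← o_unit v w, hw]; exact zP))
              (fun u w hu hw => tame_unit (hu2 u hu) (by rw [← o_unit v w, hw]; exact zA))
              (fun u w hu hw => tame_unit (hu2 u hu) (by rw [← o_unit v w, hw]; exact zP))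

end Integ

end Pool.Agent.K2G
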