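import Mathlib

/-!
# The quintic `(2 x - 1) (t x - (2 x - 1) (x - 1)) (t x (2 x - 1) - (x - 1))`
-/

set_option autoImplicit false

open Polynomial

namespace Pool.Agent.K2G

noncomputable section

variable {k : Type} [Field k]

/-- The polynomial `A = t x - (2 x - 1) (x - 1)`. -/
def polA (t : k) : k[X] := C t * X - (2 * X - 1) * (X - 1)

/-- The polynomial `B = t x (2 x - 1) - (x - 1)`. -/
def polB (t : k) : k[X] := C t * X * (2 * X - 1) - (X - 1)

/-- The polynomial `(2 x - 1) A B` of degree `5`. -/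
def quintic (t : k) : k[X] := (2 * X - 1) * polA t * polB t

namespace Irr

theorem polA_eq (t : k) : polA t = C (-2) * X ^ 2 + C (t + 3) * X + C (-1) := by
  unfold polA
  simp only [C_add, C_neg, C_1]
  have h2 : (C (2 : k)) = (2 : k[X]) := rfl
  have h3 : (C (3 : k)) = (3 : k[X]) := rfl
  rw [h2, h3]
  ring

theorem polB_eq (t : k) : polB t = C (2 * t) * X ^ 2 + C (-(t + 1)) * X + C 1 := by
  unfold polB
  simp only [C_add, C_neg, C_1, C_mul]
  have h2 : (C (2 : k)) = (2 : k[X]) := rfl
  rw [h2]
  ring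

theorem lin_eq : (2 * X - 1 : k[X]) = C 2 * X + C (-1) := by
  have h2 : (C (2 : k)) = (2 : k[X]) := rfl
  rw [h2, C_neg, C_1]
  ring

variable [CharZero k]

theorem natDegree_lin : (2 * X - 1 : k[X]).natDegree = 1 := by
  rw [lin_eq]
  exact natDegree_linear (by norm_num)

theorem natDegree_polA (t : k) : (polA t).natDegree = 2 := by
  rw [polA_eq]
  exact natDegree_quadratic (by norm_num)

theorem natDegree_polB {t : k} (ht : t ≠ 0) : (polB t).natDegree = 2 := by
  rw [polB_eq]
  exact natDegree_quadratic (mul_ne_zero (by norm_num) ht)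

omit [CharZero k] in
theorem ne_of_natDegree {f : k[X]} {n : ℕ} (h : f.natDegree = n) (hn : n ≠ 0) : f ≠ 0 := by
  rintro rfl
  simp at h
  exact hn h.symm

theorem natDegree_quintic {t : k} (ht : t ≠ 0) : (quintic t).natDegree = 5 := by
  have h1 := natDegree_lin (k := k)
  have h2 := natDegree_polA t
  have h3 := natDegree_polB ht
  have n1 := ne_of_natDegree h1 (by norm_num)
  have n2 := ne_of_natDegree h2 (by norm_num)
  have n3 := ne_of_natDegree h3 (by norm_num)
  unfold quintic
  rw [natDegree_mul (mul_ne_zero n1 n2) n3, natDegree_mul n1 n2, h1, h2, h3]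

theorem not_square {t : k} (ht : t ≠ 0) (r : RatFunc k) :
    r ^ 2 ≠ algebraMap k[X] (RatFunc k) (quintic t) := by
  intro h
  have h5 := natDegree_quintic ht
  have hq : quintic t ≠ 0 := ne_of_natDegree h5 (by norm_num)
  have hr : r ≠ 0 := by
    rintro rfl
    rw [zero_pow two_ne_zero] at h
    exact hq ((map_eq_zero_iff _ (RatFunc.algebraMap_injective k)).1 h.symm)
  have h6 := congrArg RatFunc.intDegree h
  rw [pow_two, RatFunc.intDegree_mul hr hr, RatFunc.intDegree_polynomial, h5] at h6
  omega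

theorem irr {t : k} (ht : t ≠ 0) :
    Irreducible (X ^ 2 - C (algebraMap k[X] (RatFunc k) (quintic t)) : (RatFunc k)[X]) := by
  have hm : (X ^ 2 - C (algebraMap k[X] (RatFunc k) (quintic t)) : (RatFunc k)[X]).Monic :=
    monic_X_pow_sub_C _ two_ne_zero
  have hd : (X ^ 2 - C (algebraMap k[X] (RatFunc k) (quintic t)) : (RatFunc k)[X]).natDegree = 2 :=
    natDegree_X_pow_sub_C
  rw [hm.irreducible_iff_roots_eq_zero_of_degree_le_three (by rw [hd]) (by rw [hd]; norm_num)]
  rw [Multiset.eq_zero_iff_forall_notMem]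
  intro r hr
  rw [mem_roots hm.ne_zero, IsRoot.def] at hr
  simp only [eval_sub, eval_pow, eval_X, eval_C] at hr
  exact not_square ht r (sub_eq_zero.1 hr)

/-! ### Squarefreeness -/

omit [CharZero k] in
theorem sep_quad (a b c : k) (h : b ^ 2 - 4 * a * c ≠ 0) :
    (C a * X ^ 2 + C b * X + C c : k[X]).Separable := by
  refine ⟨C (-4 * a * (b ^ 2 - 4 * a * c)⁻¹), C ((b ^ 2 - 4 * a * c)⁻¹) * (C (2 * a) * X + C b), ?_⟩
  have hd : derivative (C a * X ^ 2 + C b * X + C c : k[X]) = C (2 * a) * X + C b := by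
    simp only [derivative_add, derivative_mul, derivative_C, derivative_X, derivative_X_pow,
      zero_mul, zero_add, mul_one, add_zero, C_mul]
    have h2 : (C (2 : k)) = (2 : k[X]) := rfl
    simp
    rw [h2]
    ring
  rw [hd]
  have h1 : (C ((b ^ 2 - 4 * a * c)⁻¹) * C (b ^ 2 - 4 * a * c) : k[X]) = 1 := by
    rw [← C_mul, inv_mul_cancel₀ h, C_1]
  have h2 : (C (2 : k)) = (2 : k[X]) := rfl
  have h4 : (C (4 : k)) = (4 : k[X]) := rfl
  simp only [C_mul, C_neg, C_sub, C_pow, h2, h4] at h1 ⊢
  linear_combination h1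

omit [CharZero k] in
theorem coprime_of_comb {f g u v : k[X]} {c : k} (hc : c ≠ 0) (h : u * f + v * g = C c) :
    IsCoprime f g := by
  refine ⟨C c⁻¹ * u, C c⁻¹ * v, ?_⟩
  have : (C c⁻¹ * C c : k[X]) = 1 := by rw [← C_mul, inv_mul_cancel₀ hc, C_1]
  linear_combination C c⁻¹ * h + this

theorem squarefree {t : k} (ht : t ≠ 0) (h1 : t ^ 2 + 6 * t + 1 ≠ 0)
    (h2 : t ^ 2 - 6 * t + 1 ≠ 0) : Squarefree (quintic t) := by
  have c2 : (C (2 : k)) = (2 : k[X]) := rfl
  have c4 : (C (4 : k)) = (4 : k[X]) := rfl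
  have sL : (2 * X - 1 : k[X]).Separable := by
    refine coprime_of_comb (u := 0) (v := 1) (c := 2) (by norm_num) ?_
    have : derivative (2 * X - 1 : k[X]) = 2 := by
      rw [derivative_sub, derivative_mul, derivative_X, derivative_one]
      simp
    rw [this, c2]
    ring
  have sA : (polA t).Separable := by
    rw [polA_eq]
    apply sep_quad
    intro h
    apply h1
    linear_combination h
  have sB : (polB t).Separable := by
    rw [polB_eq]
    apply sep_quad
    intro h
    apply h2
    linear_combination h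
  have cLA : IsCoprime (2 * X - 1 : k[X]) (polA t) := by
    refine coprime_of_comb (u := 2 * X - 2 - C t) (v := 2) (c := t) ht ?_
    unfold polA
    ring
  have cLB : IsCoprime (2 * X - 1 : k[X]) (polB t) := by
    refine coprime_of_comb (u := 1 - 2 * C t * X) (v := 2) (c := 1) one_ne_zero ?_
    unfold polB
    rw [C_1]
    ring
  have cA0 : IsCoprime (polA t) (X : k[X]) := by
    refine coprime_of_comb (u := -1) (v := C t + 3 - 2 * X) (c := 1) one_ne_zero ?_
    unfold polA
    rw [C_1]
    ring
  have cA1 : IsCoprime (polA t) (X - 1 : k[X]) := by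
    refine coprime_of_comb (u := 1) (v := -(C t - 2 * X + 1)) (c := t) ht ?_
    unfold polA
    ring
  have cA4 : IsCoprime (polA t) (C 4 : k[X]) := by
    refine coprime_of_comb (u := 0) (v := 1) (c := 4) (by norm_num) ?_
    ring
  have cAB : IsCoprime (polA t) (polB t) := by
    have e : polB t = C 4 * X * (X - 1) ^ 2 + (2 * X - 1) * polA t := by
      unfold polA polB
      rw [c4]
      ring
    rw [e]
    exact (((cA4.mul_right cA0).mul_right (cA1.pow_right)).add_mul_right_right _)
  unfold quintic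
  refine Separable.squarefree ?_
  refine Separable.mul (Separable.mul sL sA cLA) sB ?_
  exact cLB.mul_left cAB

end Irr

end

end Pool.Agent.K2G
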