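import Pool.Agent.K2G.FIELD
import Pool.Agent.K2G.INTEG

/-!
# The elements are unramified
-/

set_option autoImplicit false

open Polynomial NumberField

namespace Pool.Agent.K2G

open Pool.Agent.BEK Pool.Agent.BEK.Unr Pool.Agent.K2B Pool.Agent.K2C

noncomputable section

namespace Unrm

variable {k : Type} [Field k] [NumberField k] (t : (𝓞 k)ˣ)

/-- the constant `t` -/
def T : FC t := cst t ((t : 𝓞 k) : k)

theorem T_ne : T t ≠ 0 := (map_ne_zero (cst t)).2 (unit_ne t)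

theorem x_ne : fx t ≠ 0 := by
  intro h
  exact Fld.fx_ne t 0 (h.trans (map_zero _).symm)

theorem x1_ne : fx t - 1 ≠ 0 := by
  intro h
  exact Fld.fx_ne t 1 ((sub_eq_zero.1 h).trans (map_one _).symm)

theorem two_ne : (2 : FC t) ≠ 0 := by
  have h : cst t 2 ≠ 0 := (map_ne_zero (cst t)).2 two_ne_zero
  rwa [map_ofNat] at h

theorem p_ne : 2 * fx t - 1 ≠ 0 := by
  intro h
  apply Fld.fx_ne t (1 / 2)
  rw [map_div₀, map_one, map_ofNat, eq_div_iff (two_ne t)]
  linear_combination h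

theorem A_ne : fA t ≠ 0 := by
  have h : fA t = ofR t (algebraMap k[X] (RatFunc k) (polA ((t : 𝓞 k) : k))) := by
    unfold polA fA
    simp only [map_mul, map_sub, Fld.of_alg_X, Fld.of_alg_C, map_one, map_ofNat]
  rw [h, _root_.map_ne_zero, map_ne_zero_iff _ (RatFunc.algebraMap_injective k)]
  exact Irr.ne_of_natDegree (Irr.natDegree_polA _) (by norm_num)

/-- the function `Z` -/
def Z : FC t := (fy t - fA t) / (2 * fA t)

theorem y_eq : fy t = fA t * (2 * Z t + 1) := by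
  have h1 := A_ne t
  have h2 := two_ne t
  unfold Z
  field_simp
  ring

theorem rs_eq : fA t * (Z t * (Z t + 1)) = T t * fx t ^ 2 * (fx t - 1) := by
  have h := Fld.rel t
  rw [y_eq] at h
  have h1 := A_ne t
  have h2 := two_ne t
  have h4 : (4 : FC t) ≠ 0 := by
    have : (4 : FC t) = 2 * 2 := by norm_num
    rw [this]; exact mul_ne_zero h2 h2
  have e : 4 * (fA t * (fA t * (Z t * (Z t + 1)))) =
      4 * (fA t * (T t * fx t ^ 2 * (fx t - 1))) := by
    have hB : Fld.fB t = T t * fx t * (2 * fx t - 1) - (fx t - 1) := rfl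
    have hA : fA t = T t * fx t - (2 * fx t - 1) * (fx t - 1) := rfl
    rw [hB] at h
    linear_combination h - fA t * hA
  exact mul_left_cancel₀ h1 (mul_left_cancel₀ h4 e)

theorem bc_eq : fA t * ((Z t + fx t) * (Z t - fx t + 1)) =
    fx t * (fx t - 1) ^ 2 * (2 * fx t - 1) := by
  have hA : fA t = T t * fx t - (2 * fx t - 1) * (fx t - 1) := rfl
  linear_combination rs_eq t - fx t * (fx t - 1) * hA

theorem prods :
    Z t ≠ 0 ∧ Z t + 1 ≠ 0 ∧ Z t + fx t ≠ 0 ∧ Z t - fx t + 1 ≠ 0 := by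
  have k1 : fA t * (Z t * (Z t + 1)) ≠ 0 := by
    rw [rs_eq]
    exact mul_ne_zero (mul_ne_zero (T_ne t) (pow_ne_zero 2 (x_ne t))) (x1_ne t)
  have k2 : fA t * ((Z t + fx t) * (Z t - fx t + 1)) ≠ 0 := by
    rw [bc_eq]
    exact mul_ne_zero (mul_ne_zero (x_ne t) (pow_ne_zero 2 (x1_ne t))) (p_ne t)
  have k3 := right_ne_zero_of_mul k1
  have k4 := right_ne_zero_of_mul k2
  exact ⟨left_ne_zero_of_mul k3, right_ne_zero_of_mul k3, left_ne_zero_of_mul k4,
    right_ne_zero_of_mul k4⟩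

theorem h_eq : fh t = Z t / (Z t + 1) := by
  obtain ⟨h1, h2, -, -⟩ := prods t
  have hA := A_ne t
  have e1 : fy t - fA t = 2 * fA t * Z t := by rw [y_eq]; ring
  have e2 : fy t + fA t = 2 * fA t * (Z t + 1) := by rw [y_eq]; ring
  unfold fh
  rw [e1, e2, mul_div_mul_left _ _ (mul_ne_zero (two_ne t) hA)]

theorem g_eq : fg t = (Z t + fx t) / (Z t - fx t + 1) := by
  have hA := A_ne t
  have e1 : fy t + (2 * fx t - 1) * fA t = 2 * fA t * (Z t + fx t) := by rw [y_eq]; ring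
  have e2 : fy t - (2 * fx t - 1) * fA t = 2 * fA t * (Z t - fx t + 1) := by rw [y_eq]; ring
  unfold fg
  rw [e1, e2, mul_div_mul_left _ _ (mul_ne_zero (two_ne t) hA)]

theorem h_ne : fh t ≠ 0 := by
  obtain ⟨h1, h2, -, -⟩ := prods t
  rw [h_eq]
  exact div_ne_zero h1 h2

theorem g_ne : fg t ≠ 0 := by
  obtain ⟨-, -, h1, h2⟩ := prods t
  rw [g_eq]
  exact div_ne_zero h1 h2

theorem T_unit (v : DV (FC t)) : Un v (T t) := by
  have h1 : IsIntegral ℤ (T t) :=
    (RingOfIntegers.isIntegral_coe (t : 𝓞 k)).map (cst t).toIntAlgHom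
  have h2 : IsIntegral ℤ (T t)⁻¹ := by
    have h3 : (T t)⁻¹ = cst t (((t⁻¹ : (𝓞 k)ˣ) : 𝓞 k) : k) := by
      unfold T
      rw [← map_inv₀]
      congr 1
      apply inv_eq_of_mul_eq_one_right
      have : ((t : 𝓞 k) * ((t⁻¹ : (𝓞 k)ˣ) : 𝓞 k)) = 1 := Units.mul_inv t
      have h4 := congrArg (algebraMap (𝓞 k) k) this
      rw [map_mul, map_one] at h4
      exact h4
    rw [h3]
    exact (RingOfIntegers.isIntegral_coe _).map (cst t).toIntAlgHom
  have k1 : I v (T t) := Integ.I_of_integral h1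
  have k2 : I v (T t)⁻¹ := Integ.I_of_integral h2
  refine Un.left_of_mul (a := T t) (b := (T t)⁻¹) ?_ k1 k2
  rw [mul_inv_cancel₀ (T_ne t)]
  exact Un_one

theorem concl (v : DV (FC t)) : K2G.Integ.Concl v (fx t) (fx t - 1) (2 * fx t - 1) (Z t) (Z t + 1)
    (Z t + fx t) (Z t - fx t + 1) := by
  obtain ⟨h1, h2, h3, h4⟩ := prods t
  refine K2G.Integ.main (T_unit t v) (x_ne t) (x1_ne t) (p_ne t) h1 h2 h3 h4 (by ring) rfl
    (by ring) (by ring) rfl (by ring) (by ring) (by ring) ?_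
  apply mul_left_cancel₀ (A_ne t)
  linear_combination T t * fx t * bc_eq t - (2 * fx t - 1) * (fx t - 1) * rs_eq t

theorem unram (j : Fin 4) : Unram (alpha t j) := by
  intro v
  have hc := concl t v
  have key : ∀ a b : FC t, ∀ (ha : a ≠ 0) (hb : b ≠ 0),
      v.tame (Units.mk0 a ha) (Units.mk0 b hb) ^ 4 = 1 → v.tame2 (K2B.sym a b) = 0 := by
    intro a b ha hb h
    unfold K2B.sym
    rw [dif_pos ⟨ha, hb⟩]
    exact K2B.Fin.tame2_pow v _ _ h
  fin_cases j
  · exact key _ _ (h_ne t) (x1_ne t) (hc _ _ (Or.inl ⟨h_eq t, Or.inl rfl⟩))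
  · exact key _ _ (h_ne t) (p_ne t) (hc _ _ (Or.inl ⟨h_eq t, Or.inr rfl⟩))
  · exact key _ _ (g_ne t) (x_ne t) (hc _ _ (Or.inr ⟨g_eq t, Or.inl rfl⟩))
  · exact key _ _ (g_ne t) (p_ne t) (hc _ _ (Or.inr ⟨g_eq t, Or.inr rfl⟩))

end Unrm

end

end Pool.Agent.K2G
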