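import Pool.Agent.K2G.SYM
import Pool.Agent.K2G.UNR
import Pool.Agent.K2B.TRANSC
import Pool.Agent.K2C.Fini

/-!
# The curve for one unit
-/

set_option autoImplicit false

open Polynomial NumberField

namespace Pool.Agent.K2G

open Pool.Agent.BEK Pool.Agent.K2B

noncomputable section

namespace Main

open Est Cir Sym

theorem log50 : (3 : ℝ) ≤ Real.log 50 := by
  rw [Real.le_log_iff_exp_le (by norm_num)]
  have h1 := Real.exp_one_lt_d9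
  have h2 : Real.exp 3 = Real.exp 1 ^ 3 := by
    rw [← Real.exp_nat_mul]; norm_num
  rw [h2]
  have h3 := pow_le_pow_left₀ (Real.exp_pos 1).le h1.le 3
  refine h3.trans ?_
  norm_num

theorem log_small {z : ℂ} (hz : z ≠ 0) (h : ‖z‖ ≤ 1 / 50) : Real.log ‖z‖ ≤ -3 := by
  have h1 := Real.log_le_log (norm_pos_iff.2 hz) h
  have h2 : Real.log (1 / 50) = -Real.log 50 := by
    rw [one_div, Real.log_inv]
  have h3 := log50
  linarith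

variable {k : Type} [Field k] [NumberField k] (t : (𝓞 k)ˣ)

theorem reg_sym' (γ : Loop (FC t)) {a b : FC t} (ha : a ≠ 0) (hb : b ≠ 0) :
    γ.reg (K2B.sym a b) = regz (fun θ => γ.ev θ a) (fun θ => γ.ev θ b) := by
  unfold K2B.sym
  rw [dif_pos ⟨ha, hb⟩]
  exact γ.reg_sym _ _

/-- the regulators along a loop -/
theorem regs (γ : Loop (FC t)) (σ : k →+* ℂ) (X Y : ℝ → ℂ) (hO : Over γ σ)
    (hx : ∀ θ, γ.ev θ (fx t) = X θ) (hy : ∀ θ, γ.ev θ (fy t) = Y θ) :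
    γ.reg (alpha t 0) = regz (fun θ => vh (σ ((t : 𝓞 k) : k)) (X θ) (Y θ))
      (fun θ => X θ - 1) ∧
    γ.reg (alpha t 1) = regz (fun θ => vh (σ ((t : 𝓞 k) : k)) (X θ) (Y θ))
      (fun θ => 2 * X θ - 1) ∧
    γ.reg (alpha t 2) = regz (fun θ => vg (σ ((t : 𝓞 k) : k)) (X θ) (Y θ)) X ∧
    γ.reg (alpha t 3) = regz (fun θ => vg (σ ((t : 𝓞 k) : k)) (X θ) (Y θ))
      (fun θ => 2 * X θ - 1) := by
  have eA : ∀ θ, γ.ev θ (fA t) = vA (σ ((t : 𝓞 k) : k)) (X θ) := by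
    intro θ
    unfold fA vA
    rw [map_sub, map_mul, map_mul, map_sub, map_sub, map_mul, hx, hO, map_ofNat, map_one]
  have eh : ∀ θ, γ.ev θ (fh t) = vh (σ ((t : 𝓞 k) : k)) (X θ) (Y θ) := by
    intro θ
    unfold fh vh
    rw [map_div₀, map_sub, map_add, hy, eA]
  have eg : ∀ θ, γ.ev θ (fg t) = vg (σ ((t : 𝓞 k) : k)) (X θ) (Y θ) := by
    intro θ
    unfold fg vg
    rw [map_div₀, map_sub, map_add, map_mul, map_sub, map_mul, hy, eA, hx, map_ofNat, map_one]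
  have e1 : ∀ θ, γ.ev θ (fx t - 1) = X θ - 1 := by
    intro θ
    rw [map_sub, hx, map_one]
  have e2 : ∀ θ, γ.ev θ (2 * fx t - 1) = 2 * X θ - 1 := by
    intro θ
    rw [map_sub, map_mul, hx, map_one, map_ofNat]
  refine ⟨?_, ?_, ?_, ?_⟩
  · show γ.reg (K2B.sym (fh t) (fx t - 1)) = _
    rw [reg_sym' t γ (Unrm.h_ne t) (Unrm.x1_ne t)]
    simp only [eh, e1]
  · show γ.reg (K2B.sym (fh t) (2 * fx t - 1)) = _
    rw [reg_sym' t γ (Unrm.h_ne t) (Unrm.p_ne t)]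
    simp only [eh, e2]
  · show γ.reg (K2B.sym (fg t) (fx t)) = _
    rw [reg_sym' t γ (Unrm.g_ne t) (Unrm.x_ne t)]
    simp only [eg, hx]
  · show γ.reg (K2B.sym (fg t) (2 * fx t - 1)) = _
    rw [reg_sym' t γ (Unrm.g_ne t) (Unrm.p_ne t)]
    simp only [eg, e2]

/-- a loop over a place where `t` is small -/
theorem loopS (σ : k →+* ℂ) (X Y : ℝ → ℂ) (u₁ u₂ e₁ e₂ e₃ e₄ : ℝ)
    (h : Sm (σ ((t : 𝓞 k) : k)) X Y u₁ u₂ e₁ e₂ e₃ e₄)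
    (hT : ∀ θ (f : k[X]), f ≠ 0 → (f.map σ).eval (X θ) ≠ 0) :
    ∃ γ : Loop (FC t), Over γ σ ∧ ((∀ a, (σ a).im = 0) → Anti γ) ∧
      |γ.reg (alpha t 0) - u₁| ≤ e₁ ∧ |γ.reg (alpha t 1) - u₂| ≤ e₂ ∧
      |γ.reg (alpha t 2)| ≤ e₃ ∧ |γ.reg (alpha t 3)| ≤ e₄ := by
  obtain ⟨γ, hO, hx, hy, hc⟩ := Fld.floop t σ X Y h.cX.smooth h.cY.smooth h.cX.periodic
    h.cY.periodic h.on hT
  obtain ⟨r0, r1, r2, r3⟩ := regs t γ σ X Y hO hx hy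
  refine ⟨γ, hO, ?_, ?_, ?_, ?_, ?_⟩
  · intro hr
    obtain ⟨h1, h2⟩ := h.conj (Complex.conj_eq_iff_im.2 (hr _))
    exact hc hr h1 h2
  · rw [r0]; exact h.r1
  · rw [r1]; exact h.r2
  · rw [r2]; exact h.r3
  · rw [r3]; exact h.r4

/-- a loop over a place where `t` is large -/
theorem loopL (σ : k →+* ℂ) (X Y : ℝ → ℂ) (u₁ u₂ e₁ e₂ e₃ e₄ : ℝ)
    (h : Lg (σ ((t : 𝓞 k) : k)) X Y u₁ u₂ e₁ e₂ e₃ e₄)
    (hT : ∀ θ (f : k[X]), f ≠ 0 → (f.map σ).eval (X θ) ≠ 0) :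
    ∃ γ : Loop (FC t), Over γ σ ∧ ((∀ a, (σ a).im = 0) → Anti γ) ∧
      |γ.reg (alpha t 0)| ≤ e₃ ∧ |γ.reg (alpha t 1)| ≤ e₄ ∧
      |γ.reg (alpha t 2) - u₁| ≤ e₁ ∧ |γ.reg (alpha t 3) - u₂| ≤ e₂ := by
  obtain ⟨γ, hO, hx, hy, hc⟩ := Fld.floop t σ X Y h.cX.smooth h.cY.smooth h.cX.periodic
    h.cY.periodic h.on hT
  obtain ⟨r0, r1, r2, r3⟩ := regs t γ σ X Y hO hx hy
  refine ⟨γ, hO, ?_, ?_, ?_, ?_, ?_⟩
  · intro hr
    obtain ⟨h1, h2⟩ := h.conj (Complex.conj_eq_iff_im.2 (hr _))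
    exact hc hr h1 h2
  · rw [r0]; exact h.r1
  · rw [r1]; exact h.r2
  · rw [r2]; exact h.r3
  · rw [r3]; exact h.r4

theorem circ_flip (c : ℂ) (r θ : ℝ) : 1 - circ c r θ = circ (1 - c) r (θ + Real.pi) := by
  unfold circ
  push_cast
  rw [add_mul, Complex.exp_add, Complex.exp_pi_mul_I]
  ring

/-- the matrix is strictly diagonally dominant -/
theorem det_ne (M : Matrix (Fin 4) (Fin 4) ℝ) (L L' : ℝ) (hL : L ≤ -3) (hL' : L' ≤ -3)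
    (a00 : |M 0 0 - L| ≤ 47 / 100) (a01 : |M 0 1 - 0| ≤ 47 / 100) (a02 : |M 0 2| ≤ 28 / 100)
    (a03 : |M 0 3| ≤ 82 / 100)
    (a10 : |M 1 0 - -Real.log 2| ≤ 7 / 100)
    (a11 : |M 1 1 - (L - 2 * Real.log 2)| ≤ 10 / 100) (a12 : |M 1 2| ≤ 10 / 100)
    (a13 : |M 1 3| ≤ 14 / 100)
    (a20 : |M 2 0| ≤ 28 / 100) (a21 : |M 2 1| ≤ 82 / 100) (a22 : |M 2 2 - L'| ≤ 47 / 100)
    (a23 : |M 2 3 - 0| ≤ 47 / 100)
    (a30 : |M 3 0| ≤ 10 / 100) (a31 : |M 3 1| ≤ 14 / 100)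
    (a32 : |M 3 2 - -Real.log 2| ≤ 7 / 100)
    (a33 : |M 3 3 - (L' - 2 * Real.log 2)| ≤ 10 / 100) : M.det ≠ 0 := by
  have l1 : 0 ≤ Real.log 2 := Real.log_nonneg (by norm_num)
  have l2 : Real.log 2 ≤ 7 / 10 := by linarith [Real.log_two_lt_d9]
  rw [sub_zero] at a01 a23
  have b10 : |M 1 0| ≤ 77 / 100 := by
    have h1 := abs_sub_abs_le_abs_sub (M 1 0) (-Real.log 2)
    rw [abs_neg, abs_of_nonneg l1] at h1
    linarith
  have b32 : |M 3 2| ≤ 77 / 100 := by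
    have h1 := abs_sub_abs_le_abs_sub (M 3 2) (-Real.log 2)
    rw [abs_neg, abs_of_nonneg l1] at h1
    linarith
  have b00 : 253 / 100 ≤ |M 0 0| := by
    have h1 := (abs_le.1 a00).2
    have h2 := neg_le_abs (M 0 0)
    linarith
  have b22 : 253 / 100 ≤ |M 2 2| := by
    have h1 := (abs_le.1 a22).2
    have h2 := neg_le_abs (M 2 2)
    linarith
  have b11 : 29 / 10 ≤ |M 1 1| := by
    have h1 := (abs_le.1 a11).2
    have h2 := neg_le_abs (M 1 1)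
    linarith
  have b33 : 29 / 10 ≤ |M 3 3| := by
    have h1 := (abs_le.1 a33).2
    have h2 := neg_le_abs (M 3 3)
    linarith
  apply det_ne_zero_of_sum_row_lt_diag
  have key : ∀ i : Fin 4, ∑ j ∈ Finset.univ.erase i, ‖M i j‖ = (∑ j, ‖M i j‖) - ‖M i i‖ := by
    intro i
    rw [← Finset.add_sum_erase Finset.univ (fun j => ‖M i j‖) (Finset.mem_univ i)]
    ring
  intro i
  rw [key, Fin.sum_univ_four]
  simp only [Real.norm_eq_abs]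
  fin_cases i
  · show |M 0 0| + |M 0 1| + |M 0 2| + |M 0 3| - |M 0 0| < |M 0 0|
    linarith
  · show |M 1 0| + |M 1 1| + |M 1 2| + |M 1 3| - |M 1 1| < |M 1 1|
    linarith
  · show |M 2 0| + |M 2 1| + |M 2 2| + |M 2 3| - |M 2 2| < |M 2 2|
    linarith
  · show |M 3 0| + |M 3 1| + |M 3 2| + |M 3 3| - |M 3 3| < |M 3 3|
    linarith

theorem sqf (τ : k →+* ℂ) (hτ : ‖τ ((t : 𝓞 k) : k)‖ ≤ 1 / 50) :
    Squarefree (quintic ((t : 𝓞 k) : k)) := by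
  have key : ∀ c : ℂ, ‖c‖ = 6 → τ ((t : 𝓞 k) : k) ^ 2 + c * τ ((t : 𝓞 k) : k) + 1 ≠ 0 := by
    intro c hc h
    have h1 : (1 : ℂ) = -(τ ((t : 𝓞 k) : k) * (τ ((t : 𝓞 k) : k) + c)) := by
      linear_combination h
    have h2 := congrArg norm h1
    rw [norm_one, norm_neg, norm_mul] at h2
    have h3 := norm_add_le (τ ((t : 𝓞 k) : k)) c
    have h4 : ‖τ ((t : 𝓞 k) : k)‖ * ‖τ ((t : 𝓞 k) : k) + c‖ ≤ 1 / 50 * (1 / 50 + 6) :=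
      mul_le_mul hτ (by linarith) (norm_nonneg _) (by norm_num)
    norm_num at h4
    linarith
  apply Irr.squarefree (unit_ne t)
  · intro h
    apply key 6 (by norm_num)
    have := congrArg τ h
    rw [map_add, map_add, map_pow, map_mul, map_one, map_zero, map_ofNat] at this
    exact this
  · intro h
    apply key (-6) (by norm_num)
    have := congrArg τ h
    rw [map_add, map_sub, map_pow, map_mul, map_one, map_zero, map_ofNat] at this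
    rw [← this]
    ring

theorem main (hPhi : Stmt_Phi) (hWind : Stmt_Wind) (hReg : Stmt_Reg) (hLin : Stmt_Lin)
    (hPert : Stmt_PertB) (hTr : Stmt_Transc) (hFini : K2C.Stmt_Fini)
    (σ τ : k →+* ℂ) (hσ : 50 ≤ ‖σ ((t : 𝓞 k) : k)‖) (hτ : ‖τ ((t : 𝓞 k) : k)‖ ≤ 1 / 50) :
    Squarefree (quintic ((t : 𝓞 k) : k)) ∧ (quintic ((t : 𝓞 k) : k)).natDegree = 5 ∧
    (∀ j, Unram (alpha t j)) ∧ LinearIndependent ℚ (alpha t) ∧
    ∃ γ : Fin 4 → Loop (FC t), Over (γ 0) τ ∧ Over (γ 1) τ ∧ Over (γ 2) σ ∧ Over (γ 3) σ ∧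
      ((∀ a, (τ a).im = 0) → Anti (γ 0) ∧ Anti (γ 1)) ∧
      ((∀ a, (σ a).im = 0) → Anti (γ 2) ∧ Anti (γ 3)) ∧
      (K2C.regM γ (alpha t)).det ≠ 0 ∧ K2C.Spans γ := by
  have ht := unit_ne t
  have hτ0 : τ ((t : 𝓞 k) : k) ≠ 0 := (_root_.map_ne_zero τ).2 ht
  have hσ0 : σ ((t : 𝓞 k) : k) ≠ 0 := (_root_.map_ne_zero σ).2 ht
  have hs0 : -1 / σ ((t : 𝓞 k) : k) ≠ 0 := div_ne_zero (neg_ne_zero.2 one_ne_zero) hσ0
  have hs : ‖-1 / σ ((t : 𝓞 k) : k)‖ ≤ 1 / 50 := by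
    rw [norm_div, norm_neg, norm_one]
    exact one_div_le_one_div_of_le (by norm_num) hσ
  obtain ⟨r, r1, r2, rt⟩ := hTr.1 (24 / 100) (25 / 100) (by norm_num)
  obtain ⟨ρ, ρ1, ρ2, ρt⟩ := hTr.1 (19 / 100) (20 / 100) (by norm_num)
  have hr : 0 < r := by linarith
  have hρ : 0 < ρ := by linarith
  obtain ⟨Y₀, s₀⟩ := one hPhi hWind hReg hLin hPert _ hτ0 hτ r r1 r2
  obtain ⟨Y₁, s₁⟩ := half hPhi hWind hReg hLin hPert _ hτ0 hτ ρ ρ1 ρ2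
  obtain ⟨Y₂, s₂⟩ := one hPhi hWind hReg hLin hPert _ hs0 hs r r1 r2
  obtain ⟨Y₃, s₃⟩ := half hPhi hWind hReg hLin hPert _ hs0 hs ρ ρ1 ρ2
  have g₂ := lg hReg _ hσ0 _ _ _ _ _ _ _ _ s₂
  have g₃ := lg hReg _ hσ0 _ _ _ _ _ _ _ _ s₃
  obtain ⟨γ₀, o₀, c₀, q00, q01, q02, q03⟩ := loopS t τ _ _ _ _ _ _ _ _ s₀ (fun θ f hf => by
    have h := hTr.2 k τ 1 r θ hr rt f hf
    rwa [map_one] at h)
  obtain ⟨γ₁, o₁, c₁, q10, q11, q12, q13⟩ := loopS t τ _ _ _ _ _ _ _ _ s₁ (fun θ f hf => by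
    have h := hTr.2 k τ (1 / 2) ρ θ hρ ρt f hf
    rwa [map_div₀, map_one, map_ofNat] at h)
  obtain ⟨γ₂, o₂, c₂, q20, q21, q22, q23⟩ := loopL t σ _ _ _ _ _ _ _ _ g₂ (fun θ f hf => by
    have h := hTr.2 k σ 0 r (θ + Real.pi) hr rt f hf
    rw [map_zero] at h
    rw [circ_flip, sub_self]
    exact h)
  obtain ⟨γ₃, o₃, c₃, q30, q31, q32, q33⟩ := loopL t σ _ _ _ _ _ _ _ _ g₃ (fun θ f hf => by
    have h := hTr.2 k σ (1 / 2) ρ (θ + Real.pi) hρ ρt f hf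
    rw [map_div₀, map_one, map_ofNat] at h
    have e : (1 - 1 / 2 : ℂ) = 1 / 2 := by norm_num
    rw [circ_flip, e]
    exact h)
  set γ : Fin 4 → Loop (FC t) := ![γ₀, γ₁, γ₂, γ₃] with hγ
  have hdet : (K2C.regM γ (alpha t)).det ≠ 0 :=
    det_ne _ (Real.log ‖τ ((t : 𝓞 k) : k)‖) (Real.log ‖-1 / σ ((t : 𝓞 k) : k)‖)
      (log_small hτ0 hτ) (log_small hs0 hs) q00 q01 q02 q03 q10 q11 q12 q13 q20 q21 q22 q23
      q30 q31 q32 q33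
  have hU := Unrm.unram t
  obtain ⟨f1, f2⟩ := hFini (FC t) (Fin 4) γ (alpha t) hdet
  exact ⟨sqf t τ hτ, Irr.natDegree_quintic ht, hU, f1, γ, o₀, o₁, o₂, o₃,
    fun h => ⟨c₀ h, c₁ h⟩, fun h => ⟨c₂ h, c₃ h⟩, hdet, f2 hU⟩

end Main

end

end Pool.Agent.K2G
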