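import Pool.Agent.K2G.CIR

/-!
# The symmetry `x ↦ 1 - x`, `t ↦ -1/t`
-/

set_option autoImplicit false

namespace Pool.Agent.K2G

open Pool.Agent.BEK Pool.Agent.K2B

noncomputable section

namespace Sym

open Est Cir

theorem num_den {a b : ℂ} (h : a / b ≠ 0) : a ≠ 0 ∧ b ≠ 0 := by
  constructor
  · rintro rfl
    exact h (zero_div _)
  · rintro rfl
    exact h (div_zero _)

/-- the symmetry at one point -/
theorem pt (t x y : ℂ) (ht : t ≠ 0) (hy : y ≠ 0) (on : OnC (-1 / t) x y)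
    (h1 : vh (-1 / t) x y ≠ 0) (h2 : vg (-1 / t) x y ≠ 0) :
    OnC t (1 - x) (t * y) ∧ vg t (1 - x) (t * y) = -vh (-1 / t) x y ∧
    vh t (1 - x) (t * y) = -(vg (-1 / t) x y)⁻¹ := by
  have eA : t * vA (-1 / t) x = -vB t (1 - x) := by
    unfold vA vB
    field_simp
    ring
  have eB : t * vB (-1 / t) x = vA t (1 - x) := by
    unfold vA vB
    field_simp
    ring
  have on' : OnC t (1 - x) (t * y) := by
    unfold OnC at *
    have : (t * y) ^ 2 = (2 * x - 1) * (t * vA (-1 / t) x) * (t * vB (-1 / t) x) := by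
      rw [mul_pow, on]; ring
    rw [this, eA, eB]
    ring
  have ty : t * y ≠ 0 := mul_ne_zero ht hy
  -- rewrite `vh`, `vg` at `(x, y)`
  have k1 : vh (-1 / t) x y = (t * y + vB t (1 - x)) / (t * y - vB t (1 - x)) := by
    unfold vh
    rw [← mul_div_mul_left _ _ ht, mul_sub, mul_add, eA, sub_neg_eq_add, ← sub_eq_add_neg]
  have k2 : vg (-1 / t) x y = (t * y + (2 * (1 - x) - 1) * vB t (1 - x)) /
      (t * y - (2 * (1 - x) - 1) * vB t (1 - x)) := by
    unfold vg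
    rw [← mul_div_mul_left _ _ ht]
    congr 1
    · linear_combination (2 * x - 1) * eA
    · linear_combination -(2 * x - 1) * eA
  rw [k1] at h1
  rw [k2] at h2
  obtain ⟨c1, c2⟩ := num_den h1
  obtain ⟨c3, c4⟩ := num_den h2
  rw [k1, k2]
  refine ⟨on', ?_, ?_⟩
  · unfold vg
    generalize t * y = Y at *
    unfold OnC at on'
    generalize vB t (1 - x) = B at *
    generalize vA t (1 - x) = A at *
    generalize 2 * (1 - x) - 1 = p at *
    have c5 : Y - p * A ≠ 0 := by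
      intro h
      have h3 : Y * (Y - B) = 0 := by linear_combination on' - B * h
      rcases mul_eq_zero.1 h3 with h4 | h4
      · exact ty h4
      · exact c2 h4
    rw [div_eq_iff c5, neg_div' , div_mul_eq_mul_div, eq_div_iff c2]
    linear_combination 2 * on'
  · unfold vh
    generalize t * y = Y at *
    unfold OnC at on'
    generalize vB t (1 - x) = B at *
    generalize vA t (1 - x) = A at *
    generalize 2 * (1 - x) - 1 = p at *
    have c5 : Y + A ≠ 0 := by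
      intro h
      have h3 : Y * (Y + p * B) = 0 := by linear_combination on' + p * B * h
      rcases mul_eq_zero.1 h3 with h4 | h4
      · exact ty h4
      · exact c3 h4
    rw [inv_div, div_eq_iff c5, neg_div', div_mul_eq_mul_div, eq_div_iff c3]
    linear_combination 2 * on'

theorem neg_left (hReg : Stmt_Reg) {f g : ℝ → ℂ} (hf : Nz f) (hg : Nz g) :
    regz (fun θ => -f θ) g = regz f g := by
  have e : (fun θ => -f θ) = fun θ => (-1) * f θ := by
    funext θ; ring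
  rw [e, hReg.1 _ f g (Rgl.nz_const (neg_ne_zero.2 one_ne_zero)) hf hg, Rgl.const_left hReg,
    norm_neg, norm_one, Real.log_one, zero_mul, zero_add]

theorem neg_right (hReg : Stmt_Reg) {f g : ℝ → ℂ} (hf : Nz f) (hg : Nz g) :
    regz f (fun θ => -g θ) = regz f g := by
  rw [hReg.2.2.1 (fun θ => -g θ) f, neg_left hReg hg hf, hReg.2.2.1 f g, neg_neg]

theorem inv_left (hReg : Stmt_Reg) {f g : ℝ → ℂ} (hf : Nz f) (hg : Nz g) :
    regz (fun θ => (f θ)⁻¹) g = -regz f g := by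
  have h := K2C.Quo.left (Rgl.nz_const one_ne_zero) hf hg
  simp only [one_div] at h
  rw [h, Rgl.const_left hReg, norm_one, Real.log_one]
  ring

theorem nz_inv {f : ℝ → ℂ} (hf : Nz f) : Nz (fun θ => (f θ)⁻¹) := by
  have h := K2C.Quo.nz_div (Rgl.nz_const one_ne_zero) hf
  simpa only [one_div] using h

/-- the estimates for large `t` -/
structure Lg (t : ℂ) (X Y : ℝ → ℂ) (u₁ u₂ e₁ e₂ e₃ e₄ : ℝ) : Prop where
  cX : Cp X
  cY : Cp Y
  on : ∀ θ, OnC t (X θ) (Y θ)
  r1 : |regz (fun θ => vh t (X θ) (Y θ)) (fun θ => X θ - 1)| ≤ e₃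
  r2 : |regz (fun θ => vh t (X θ) (Y θ)) (fun θ => 2 * X θ - 1)| ≤ e₄
  r3 : |regz (fun θ => vg t (X θ) (Y θ)) X - u₁| ≤ e₁
  r4 : |regz (fun θ => vg t (X θ) (Y θ)) (fun θ => 2 * X θ - 1) - u₂| ≤ e₂
  conj : (starRingEnd ℂ) t = t → (∀ θ, X (-θ) = (starRingEnd ℂ) (X θ)) ∧
    (∀ θ, Y (-θ) = (starRingEnd ℂ) (Y θ))

theorem lg (hReg : Stmt_Reg) (t : ℂ) (ht : t ≠ 0) (X Y : ℝ → ℂ) (u₁ u₂ e₁ e₂ e₃ e₄ : ℝ)
    (h : Sm (-1 / t) X Y u₁ u₂ e₁ e₂ e₃ e₄) :
    Lg t (fun θ => 1 - X θ) (fun θ => t * Y θ) u₁ u₂ e₁ e₂ e₃ e₄ := by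
  have hp := fun θ => pt t (X θ) (Y θ) ht (h.ny θ) (h.on θ) (h.nh.ne θ) (h.ng.ne θ)
  have a1 : (fun θ => vg t (1 - X θ) (t * Y θ)) = fun θ => -vh (-1 / t) (X θ) (Y θ) :=
    funext fun θ => (hp θ).2.1
  have a2 : (fun θ => vh t (1 - X θ) (t * Y θ)) = fun θ => -(vg (-1 / t) (X θ) (Y θ))⁻¹ :=
    funext fun θ => (hp θ).2.2
  have b1 : (fun θ => 1 - X θ - 1) = fun θ => -(X θ) := by funext θ; ring
  have b2 : (fun θ => 2 * (1 - X θ) - 1) = fun θ => -(2 * X θ - 1) := by funext θ; ring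
  have b3 : (fun θ => 1 - X θ) = fun θ => -(X θ - 1) := by funext θ; ring
  have nX1' : Nz (fun θ => -(X θ - 1)) := by
    rw [← b3]
    exact (Est.Cp.sub (Cp.const 1) h.cX).nz fun θ hh => h.nX1.ne θ (by linear_combination -hh)
  have nX' : Nz (fun θ => -(X θ)) := by
    rw [← b1]
    exact (((Cp.const 1).sub h.cX).sub (Cp.const 1)).nz fun θ hh =>
      h.nX.ne θ (by linear_combination -hh)
  have nX2' : Nz (fun θ => -(2 * X θ - 1)) := by
    have h3 : Nz (fun θ => (-1) * (2 * X θ - 1)) :=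
      Rgl.nz_mul (Rgl.nz_const (neg_ne_zero.2 one_ne_zero)) h.nX2
    have e : (fun θ => -(2 * X θ - 1)) = fun θ => (-1) * (2 * X θ - 1) := by funext θ; ring
    rw [e]
    exact h3
  refine ⟨(Cp.const 1).sub h.cX, (Cp.const t).mul h.cY, fun θ => (hp θ).1, ?_, ?_, ?_, ?_, ?_⟩
  · rw [a2, b1, neg_left hReg (nz_inv h.ng) nX', neg_right hReg (nz_inv h.ng) h.nX,
      inv_left hReg h.ng h.nX, abs_neg]
    exact h.r3
  · rw [a2, b2, neg_left hReg (nz_inv h.ng) nX2', neg_right hReg (nz_inv h.ng) h.nX2,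
      inv_left hReg h.ng h.nX2, abs_neg]
    exact h.r4
  · rw [a1, b3, neg_left hReg h.nh nX1', neg_right hReg h.nh h.nX1]
    exact h.r1
  · rw [a1, b2, neg_left hReg h.nh nX2', neg_right hReg h.nh h.nX2]
    exact h.r2
  · intro hc
    have hc' : (starRingEnd ℂ) (-1 / t) = -1 / t := by
      rw [map_div₀, map_neg, map_one, hc]
    obtain ⟨h1, h2⟩ := h.conj hc'
    refine ⟨fun θ => ?_, fun θ => ?_⟩
    · show 1 - X (-θ) = _
      rw [h1, map_sub, map_one]
    · show t * Y (-θ) = _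
      rw [h2, map_mul, hc]

end Sym

end

end Pool.Agent.K2G
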