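import Mathlib

/-!
# Units that are large at one place and small at another one
-/

set_option autoImplicit false

open NumberField

namespace Pool.Agent.K2G

namespace Unit'

theorem exists_one (k : Type) [Field k] [NumberField k] (v w : InfinitePlace k) (h : v ≠ w) :
    ∃ u : (𝓞 k)ˣ, 1 < v ((u : 𝓞 k) : k) ∧ w ((u : 𝓞 k) : k) < 1 := by
  obtain ⟨u, hu⟩ := Units.dirichletUnitTheorem.exists_unit k v
  have hpos : ∀ w' : InfinitePlace k, 0 < w' ((u : 𝓞 k) : k) := fun w' => by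
    rw [InfinitePlace.pos_iff]
    intro h0
    exact u.ne_zero (RingOfIntegers.ext (h0.trans (map_zero _).symm))
  have hneg : ∀ w' : InfinitePlace k, w' ≠ v → Real.log (w' ((u : 𝓞 k) : k)) < 0 := hu
  refine ⟨u, ?_, ?_⟩
  · by_contra hc
    have h1 : Real.log (v ((u : 𝓞 k) : k)) ≤ 0 := Real.log_nonpos (hpos v).le (not_lt.1 hc)
    have h2 := Units.sum_mult_mul_log u
    have h3 : ∑ w' : InfinitePlace k, (w'.mult : ℝ) * Real.log (w' ((u : 𝓞 k) : k)) < 0 := by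
      have k1 : ∀ w' ∈ (Finset.univ : Finset (InfinitePlace k)),
          (w'.mult : ℝ) * Real.log (w' ((u : 𝓞 k) : k)) ≤ 0 := by
        intro w' _
        by_cases hw : w' = v
        · rw [hw]
          exact mul_nonpos_of_nonneg_of_nonpos (Nat.cast_nonneg _) h1
        · exact mul_nonpos_of_nonneg_of_nonpos (Nat.cast_nonneg _) (hneg w' hw).le
      have k2 : (w.mult : ℝ) * Real.log (w ((u : 𝓞 k) : k)) < 0 :=
        mul_neg_of_pos_of_neg (Nat.cast_pos.2 InfinitePlace.mult_pos) (hneg w h.symm)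
      exact Finset.sum_neg' k1 ⟨w, Finset.mem_univ _, k2⟩
    exact absurd h2 h3.ne
  · by_contra hc
    have := hneg w h.symm
    have h1 := Real.log_nonneg (not_lt.1 hc)
    linarith

theorem exists_unit (k : Type) [Field k] [NumberField k] (v w : InfinitePlace k) (h : v ≠ w)
    (N : ℝ) : ∃ t : (𝓞 k)ˣ, N ≤ v ((t : 𝓞 k) : k) ∧ N * w ((t : 𝓞 k) : k) ≤ 1 := by
  obtain ⟨u, h1, h2⟩ := exists_one k v w h
  have hw0 : 0 < w ((u : 𝓞 k) : k) := by
    rw [InfinitePlace.pos_iff]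
    intro h0
    exact u.ne_zero (RingOfIntegers.ext (h0.trans (map_zero _).symm))
  obtain ⟨a, ha⟩ := pow_unbounded_of_one_lt N h1
  obtain ⟨b, hb⟩ := pow_unbounded_of_one_lt N (one_lt_inv₀ hw0 |>.2 h2)
  have e : ∀ n : ℕ, (((u ^ n : (𝓞 k)ˣ) : 𝓞 k) : k) = ((u : 𝓞 k) : k) ^ n := by
    intro n
    rw [Units.val_pow_eq_pow_val]
    exact map_pow (algebraMap (𝓞 k) k) _ _
  refine ⟨u ^ (max a b), ?_, ?_⟩
  · rw [e, map_pow]
    exact ha.le.trans (pow_le_pow_right₀ h1.le (le_max_left _ _))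
  · rw [e, map_pow]
    have h3 : w ((u : 𝓞 k) : k) ^ (max a b) ≤ w ((u : 𝓞 k) : k) ^ b :=
      pow_le_pow_of_le_one hw0.le h2.le (le_max_right _ _)
    have h4 : N * w ((u : 𝓞 k) : k) ^ b ≤ 1 := by
      have h5 : N ≤ (w ((u : 𝓞 k) : k) ^ b)⁻¹ := by
        rw [← inv_pow]; exact hb.le
      calc N * w ((u : 𝓞 k) : k) ^ b
          ≤ (w ((u : 𝓞 k) : k) ^ b)⁻¹ * w ((u : 𝓞 k) : k) ^ b :=
            mul_le_mul_of_nonneg_right h5 (pow_pos hw0 _).le
        _ = 1 := inv_mul_cancel₀ (pow_pos hw0 _).ne'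
    by_cases hN : 0 ≤ N
    · exact (mul_le_mul_of_nonneg_left h3 hN).trans h4
    · have : N * w ((u : 𝓞 k) : k) ^ (max a b) ≤ 0 :=
        mul_nonpos_of_nonpos_of_nonneg (not_le.1 hN).le (pow_pos hw0 _).le
      linarith

end Unit'

end Pool.Agent.K2G
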